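import Mathlib

set_option autoImplicit false

/-!
Numbers read as arrays of fields of a fixed width.
-/

namespace Pool.Agent.H188.Ab

/-- the field of index `j` -/
def fld (W A j : ℕ) : ℕ := (A >>> (W * j)) % 2 ^ W

theorem fld_lt (W A j : ℕ) : fld W A j < 2 ^ W := Nat.mod_lt _ (by positivity)

theorem fld_testBit (W A j i : ℕ) :
    (fld W A j).testBit i = (decide (i < W) && A.testBit (W * j + i)) := by
  unfold fld
  rw [Nat.testBit_mod_two_pow, Nat.testBit_shiftRight]

theorem fld_zero (W j : ℕ) : fld W 0 j = 0 := by simp [fld]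

theorem fld_land (W A B j : ℕ) : fld W (A &&& B) j = fld W A j &&& fld W B j := by
  apply Nat.eq_of_testBit_eq
  intro i
  rw [fld_testBit, Nat.testBit_and, Nat.testBit_and, fld_testBit, fld_testBit]
  cases decide (i < W) <;> simp

theorem fld_lor (W A B j : ℕ) : fld W (A ||| B) j = fld W A j ||| fld W B j := by
  apply Nat.eq_of_testBit_eq
  intro i
  rw [fld_testBit, Nat.testBit_or, Nat.testBit_or, fld_testBit, fld_testBit]
  cases decide (i < W) <;> simp

theorem fld_xor (W A B j : ℕ) : fld W (A ^^^ B) j = fld W A j ^^^ fld W B j := by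
  apply Nat.eq_of_testBit_eq
  intro i
  rw [fld_testBit, Nat.testBit_xor, Nat.testBit_xor, fld_testBit, fld_testBit]
  cases decide (i < W) <;> simp

theorem fld_shr (W A s j : ℕ) : fld W (A >>> (W * s)) j = fld W A (j + s) := by
  unfold fld
  rw [← Nat.shiftRight_add]
  congr 2
  ring

theorem fld_mod (W A s j : ℕ) : fld W (A % 2 ^ (W * s)) j = if j < s then fld W A j else 0 := by
  apply Nat.eq_of_testBit_eq
  intro i
  rw [fld_testBit, Nat.testBit_mod_two_pow]
  by_cases hj : j < s
  · rw [if_pos hj, fld_testBit]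
    by_cases hi : i < W
    · have h : W * j + i < W * s := by
        have h1 : W * (j + 1) ≤ W * s := Nat.mul_le_mul_left W hj
        have h2 : W * (j + 1) = W * j + W := by ring
        omega
      simp [hi, h]
    · simp [hi]
  · rw [if_neg hj]
    have h : ¬ (W * j + i < W * s) := by
      have h1 : W * s ≤ W * j := Nat.mul_le_mul_left W (by omega)
      omega
    simp [h]

theorem fld_shl (W A s j : ℕ) :
    fld W (A <<< (W * s)) j = if s ≤ j then fld W A (j - s) else 0 := by
  apply Nat.eq_of_testBit_eq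
  intro i
  rw [fld_testBit, Nat.testBit_shiftLeft]
  by_cases hj : s ≤ j
  · rw [if_pos hj, fld_testBit]
    have h1 : W * s ≤ W * j := Nat.mul_le_mul_left W hj
    have h2 : W * j + i - W * s = W * (j - s) + i := by
      rw [Nat.mul_sub]
      omega
    have h3 : W * s ≤ W * j + i := by omega
    rw [h2]
    simp [h3]
  · rw [if_neg hj]
    by_cases hi : i < W
    · have h : ¬ (W * s ≤ W * j + i) := by
        have h1 : W * (j + 1) ≤ W * s := Nat.mul_le_mul_left W (by omega)
        have h2 : W * (j + 1) = W * j + W := by ring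
        omega
      simp [h]
    · simp [hi]

/-- division by the field size -/
theorem shr_succ (W A j : ℕ) : A >>> (W * (j + 1)) = (A >>> (W * j)) / 2 ^ W := by
  rw [Nat.mul_succ, Nat.shiftRight_add, Nat.shiftRight_eq_div_pow (A >>> (W * j)) W]

theorem shr_add (W A B : ℕ) (h : ∀ j, fld W A j + fld W B j < 2 ^ W) (j : ℕ) :
    (A + B) >>> (W * j) = A >>> (W * j) + B >>> (W * j) := by
  induction j with
  | zero => simp
  | succ j ih =>
    rw [shr_succ, shr_succ, shr_succ, ih]
    have h1 := h j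
    unfold fld at h1
    rw [Nat.add_div (by positivity : 0 < 2 ^ W), if_neg (by omega)]
    rfl

theorem fld_add (W A B : ℕ) (h : ∀ j, fld W A j + fld W B j < 2 ^ W) (j : ℕ) :
    fld W (A + B) j = fld W A j + fld W B j := by
  have h1 := shr_add W A B h j
  have h2 := h j
  unfold fld at h2 ⊢
  rw [h1, Nat.add_mod, Nat.mod_eq_of_lt h2]

theorem shr_mul (W c A : ℕ) (h : ∀ j, c * fld W A j < 2 ^ W) (j : ℕ) :
    (c * A) >>> (W * j) = c * (A >>> (W * j)) := by
  induction j with
  | zero => simp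
  | succ j ih =>
    rw [shr_succ, shr_succ, ih]
    have h1 := h j
    unfold fld at h1
    generalize A >>> (W * j) = B at h1 ⊢
    have h2 : B = 2 ^ W * (B / 2 ^ W) + B % 2 ^ W := (Nat.div_add_mod B (2 ^ W)).symm
    calc c * B / 2 ^ W = (c * (2 ^ W * (B / 2 ^ W) + B % 2 ^ W)) / 2 ^ W := by rw [← h2]
      _ = (c * (B % 2 ^ W) + 2 ^ W * (c * (B / 2 ^ W))) / 2 ^ W := by ring_nf
      _ = c * (B % 2 ^ W) / 2 ^ W + c * (B / 2 ^ W) := by
        rw [Nat.add_mul_div_left _ _ (by positivity)]
      _ = c * (B / 2 ^ W) := by rw [Nat.div_eq_of_lt h1, Nat.zero_add]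

theorem fld_mul (W c A : ℕ) (h : ∀ j, c * fld W A j < 2 ^ W) (j : ℕ) :
    fld W (c * A) j = c * fld W A j := by
  have h1 := shr_mul W c A h j
  have h2 := h j
  unfold fld at h2 ⊢
  rw [h1, Nat.mul_mod]
  by_cases hc : c = 0
  · simp [hc]
  · have h3 : c * 1 ≤ c * (A >>> (W * j) % 2 ^ W) ∨ A >>> (W * j) % 2 ^ W = 0 := by
      rcases Nat.eq_zero_or_pos (A >>> (W * j) % 2 ^ W) with h4 | h4
      · right; exact h4
      · left; exact Nat.mul_le_mul_left c h4
    rcases h3 with h3 | h3
    · rw [Nat.mod_eq_of_lt (show c < 2 ^ W by omega)]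
      exact Nat.mod_eq_of_lt h2
    · rw [h3]; simp

/-- the number with ones in the first fields -/
def onesR (W : ℕ) : ℕ → ℕ
  | 0 => 0
  | n + 1 => onesR W n * 2 ^ W + 1

theorem onesR_eq (W n : ℕ) : (2 ^ W - 1) * onesR W n + 1 = 2 ^ (W * n) := by
  induction n with
  | zero => simp [onesR]
  | succ n ih =>
    have h1 : 1 ≤ 2 ^ W := Nat.one_le_two_pow
    obtain ⟨u, hu⟩ := Nat.exists_eq_add_of_le h1
    have h2 : 2 ^ W - 1 = u := by omega
    rw [h2] at ih ⊢
    have h3 : 2 ^ (W * (n + 1)) = 2 ^ (W * n) * 2 ^ W := by rw [← Nat.pow_add]; rfl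
    rw [onesR, h3, ← ih, hu]
    ring

theorem onesR_unique (W n O : ℕ) (hW : 0 < W) (h : (2 ^ W - 1) * O + 1 = 2 ^ (W * n)) :
    O = onesR W n := by
  have h1 := onesR_eq W n
  have h2 : 2 ≤ 2 ^ W := by
    calc 2 = 2 ^ 1 := rfl
      _ ≤ 2 ^ W := Nat.pow_le_pow_right (by norm_num) hW
  have h3 : (2 ^ W - 1) * O = (2 ^ W - 1) * onesR W n := by omega
  exact Nat.eq_of_mul_eq_mul_left (by omega) h3

theorem fld_onesR (W n j : ℕ) (hW : 0 < W) : fld W (onesR W n) j = if j < n then 1 else 0 := by
  have h2 : 2 ≤ 2 ^ W := by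
    calc 2 = 2 ^ 1 := rfl
      _ ≤ 2 ^ W := Nat.pow_le_pow_right (by norm_num) hW
  induction n generalizing j with
  | zero => simp [onesR, fld]
  | succ n ih =>
    cases j with
    | zero =>
      unfold fld onesR
      rw [Nat.mul_zero, Nat.shiftRight_zero, if_pos (by omega), Nat.add_mod,
        Nat.mul_mod_left, Nat.zero_add, Nat.mod_mod, Nat.mod_eq_of_lt (by omega)]
    | succ j =>
      have h3 : fld W (onesR W (n + 1)) (j + 1) = fld W (onesR W n) j := by
        have h4 : fld W (onesR W (n + 1) >>> (W * 1)) j = fld W (onesR W (n + 1)) (j + 1) :=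
          fld_shr W _ 1 j
        rw [← h4]
        congr 1
        rw [Nat.mul_one, Nat.shiftRight_eq_div_pow]
        unfold onesR
        rw [Nat.add_comm, Nat.add_mul_div_right _ _ (by positivity),
          Nat.div_eq_of_lt (by omega), Nat.zero_add]
        cases n <;> rfl
      rw [h3, ih]
      simp

/-- mask of an interval of fields -/
def ZM (W lo hi : ℕ) : ℕ := (2 ^ (W * (hi - lo)) - 1) <<< (W * lo)

theorem fld_ZM (W lo hi j : ℕ) :
    fld W (ZM W lo hi) j = if lo ≤ j ∧ j < hi then 2 ^ W - 1 else 0 := by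
  unfold ZM
  rw [fld_shl]
  by_cases h : lo ≤ j
  · rw [if_pos h]
    by_cases h2 : j < hi
    · rw [if_pos ⟨h, h2⟩]
      apply Nat.eq_of_testBit_eq
      intro i
      rw [fld_testBit, Nat.testBit_two_pow_sub_one, Nat.testBit_two_pow_sub_one]
      by_cases hi' : i < W
      · have h3 : W * (j - lo) + i < W * (hi - lo) := by
          have h4 : W * (j - lo + 1) ≤ W * (hi - lo) := Nat.mul_le_mul_left W (by omega)
          have h5 : W * (j - lo + 1) = W * (j - lo) + W := by ring
          omega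
        simp [hi', h3]
      · simp [hi']
    · rw [if_neg (by tauto)]
      apply Nat.eq_of_testBit_eq
      intro i
      rw [fld_testBit, Nat.testBit_two_pow_sub_one]
      have h3 : ¬ (W * (j - lo) + i < W * (hi - lo)) := by
        have h4 : W * (hi - lo) ≤ W * (j - lo) := Nat.mul_le_mul_left W (by omega)
        omega
      simp [h3]
  · rw [if_neg h, if_neg (by tauto)]

theorem land_full (W x : ℕ) (h : x < 2 ^ W) : x &&& (2 ^ W - 1) = x := by
  rw [Nat.and_two_pow_sub_one_eq_mod, Nat.mod_eq_of_lt h]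

/-- rotation of an array of `L` fields -/
def rot (W L A s : ℕ) : ℕ :=
  Nat.add (Nat.shiftRight A (Nat.mul W s))
    (Nat.shiftLeft (Nat.mod A (Nat.pow 2 (Nat.mul W s))) (Nat.mul W (Nat.sub L s)))

theorem rot_eq (W L A s : ℕ) :
    rot W L A s = A >>> (W * s) + (A % 2 ^ (W * s)) <<< (W * (L - s)) := rfl

theorem fld_ge (W L A j : ℕ) (hA : A < 2 ^ (W * L)) (h : L ≤ j) : fld W A j = 0 := by
  have h1 := fld_mod W A L j
  rw [Nat.mod_eq_of_lt hA, if_neg (by omega)] at h1
  exact h1

theorem fld_rot (W L A s j : ℕ) (hs : s < L) (hj : j < L) (hA : A < 2 ^ (W * L)) :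
    fld W (rot W L A s) j = fld W A ((j + s) % L) := by
  rw [rot_eq]
  have hp : 0 < 2 ^ W := by positivity
  have key : ∀ j, fld W (A >>> (W * s)) j = 0 ∨
      fld W ((A % 2 ^ (W * s)) <<< (W * (L - s))) j = 0 := by
    intro j
    by_cases h : j < L - s
    · right
      rw [fld_shl, if_neg (by omega)]
    · left
      rw [fld_shr]
      exact fld_ge W L A _ hA (by omega)
  rw [fld_add]
  · rw [fld_shr, fld_shl]
    by_cases h : j < L - s
    · rw [if_neg (by omega), Nat.mod_eq_of_lt (by omega)]; rfl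
    · rw [if_pos (by omega), fld_ge W L A (j + s) hA (by omega), fld_mod, if_pos (by omega),
        Nat.zero_add]
      congr 1
      rw [Nat.mod_eq_sub_mod (by omega), Nat.mod_eq_of_lt (by omega)]
      omega
  · intro j
    have h1 := fld_lt W (A >>> (W * s)) j
    have h2 := fld_lt W ((A % 2 ^ (W * s)) <<< (W * (L - s))) j
    rcases key j with h | h <;> omega

/-- an array with small fields which fits -/
theorem lt_of_shr (W L A : ℕ) (h : A >>> (W * L) = 0) : A < 2 ^ (W * L) := by
  rw [Nat.shiftRight_eq_div_pow] at h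
  exact (Nat.div_eq_zero_iff_lt (by positivity)).1 h

theorem rot_lt (W L A s : ℕ) (hs : s < L) (hA : A < 2 ^ (W * L)) (j : ℕ) (hj : L ≤ j) :
    fld W (rot W L A s) j = 0 := by
  rw [rot_eq]
  have h1 : ∀ i, fld W (A >>> (W * s)) i = 0 ∨
      fld W ((A % 2 ^ (W * s)) <<< (W * (L - s))) i = 0 := by
    intro j
    by_cases h : j < L - s
    · right
      rw [fld_shl, if_neg (by omega)]
    · left
      rw [fld_shr]
      exact fld_ge W L A _ hA (by omega)
  rw [fld_add]
  · rw [fld_shr, fld_ge W L A _ hA (by omega), fld_shl, if_pos (by omega), fld_mod,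
      if_neg (by omega)]
  · intro j
    have h3 := fld_lt W (A >>> (W * s)) j
    have h2 := fld_lt W ((A % 2 ^ (W * s)) <<< (W * (L - s))) j
    rcases h1 j with h | h <;> omega

end Pool.Agent.H188.Ab
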