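import Mathlib
import Pool.Graph.R_seed8.H549R3.M2Z

set_option autoImplicit false

/-!
The word over eight letters and its images under a uniform map to two letters.
-/

namespace Pool.Agent.H188.Ab

open Finset Pool.Agent.H549R3.Chk Pool.Agent.H549R3.M2 Pool.Agent.H549R3.M2.Fam
  Pool.Agent.H549R3.Check

/-- fixed point of the 51-uniform map -/
def z : ℕ → ℕ
  | 0 => 3
  | (n + 1) => M2Z.G (z ((n + 1) / 51)) ((n + 1) % 51)
decreasing_by omega

theorem z_eq (n : ℕ) : z n = M2Z.G (z (n / 51)) (n % 51) := by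
  cases n with
  | zero =>
    have h : M2Z.G 3 0 = 3 := by decide +kernel
    simp [z, h]
  | succ n => rw [z]

theorem z_lt (n : ℕ) : z n < 8 := by
  rw [z_eq]
  exact Nat.mod_lt _ (by norm_num)

theorem z_img (m r : ℕ) (hr : r < 51) : z (51 * m + r) = M2Z.G (z m) r := by
  rw [z_eq]
  have h1 : (51 * m + r) / 51 = m := by omega
  have h2 : (51 * m + r) % 51 = r := by omega
  rw [h1, h2]

theorem imgZ : M2Z.M.Img z z := ⟨z_lt, fun m r hr => z_img m r hr⟩

/-- equal weights -/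
def ev (a b : ℕ) : Bool := and (Nat.beq (vX a) (vX b)) (Nat.beq (vY a) (vY b))

theorem ev_spec (a b : ℕ) : (ev a b = true) = (vX a = vX b ∧ vY a = vY b) := by
  unfold ev
  rw [Bool.and_eq_true, bq, bq]

theorem adj1 : allB 8 (fun a => allB 50 fun r => not (ev (M2Z.G a r) (M2Z.G a (r + 1)))) = true := by
  decide +kernel

theorem adj2 : allB 8 (fun a => allB 8 fun b => or (ev a b)
    (not (ev (M2Z.G a 50) (M2Z.G b 0)))) = true := by
  decide +kernel

theorem adj (n : ℕ) : ev (z n) (z (n + 1)) = false := by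
  induction n using Nat.strong_induction_on with
  | _ n ih =>
    obtain ⟨m, r, hr, e⟩ : ∃ m r, r < 51 ∧ 51 * m + r = n :=
      ⟨n / 51, n % 51, Nat.mod_lt _ (by norm_num), Nat.div_add_mod _ _⟩
    by_cases h : r = 50
    · subst h
      have h1 : n + 1 = 51 * (m + 1) + 0 := by omega
      rw [h1, z_img _ 0 (by norm_num), ← e, z_img _ 50 (by norm_num)]
      have h2 := allB_spec _ _ (allB_spec _ _ adj2 (z m) (z_lt m)) (z (m + 1)) (z_lt _)
      have h3 := ih m (by omega)
      rw [h3] at h2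
      simpa using h2
    · have h1 : n + 1 = 51 * m + (r + 1) := by omega
      rw [h1, z_img _ (r + 1) (by omega), ← e, z_img _ r hr]
      have h2 := allB_spec _ _ (allB_spec _ _ adj1 (z m) (z_lt m)) r (by omega)
      simpa using h2

theorem adj' (n : ℕ) : ¬ (vX (z n) = vX (z (n + 1)) ∧ vY (z n) = vY (z (n + 1))) := by
  rw [← ev_spec, adj n]
  exact Bool.false_ne_true

theorem allZ (k : ℕ) (hk : k < 3) : AllGood M2Z.M 1 3 mkZ uXZ uYZ (mkZ k) (uXZ k) (uYZ k) := by
  have : k = 0 ∨ k = 1 ∨ k = 2 := by omega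
  rcases this with rfl | rfl | rfl
  · exact M2Z.all0
  · exact M2Z.all1
  · exact M2Z.all2

/-- no additive square of period one -/
theorem no1 (j : ℕ) : ¬ Tpl vX vY z (fun _ => true) (fun _ => 0) (fun _ => 0) j 1 := by
  rintro ⟨_, h1, h2⟩
  unfold V at h1 h2
  dsimp only at h1 h2
  have a1 := S_succ vX z j
  have a2 := S_succ vX z (j + 1)
  have b1 := S_succ vY z j
  have b2 := S_succ vY z (j + 1)
  apply adj' j
  rw [show j + 2 * 1 = j + 1 + 1 by ring] at h1 h2
  omega

/-- the word over eight letters realises no template -/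
theorem noZ (q : ℕ) : ∀ k < 3, ∀ j, 0 < q → ¬ Tpl vX vY z (mkZ k) (uXZ k) (uYZ k) j q := by
  induction q using Nat.strong_induction_on with
  | _ q ih =>
    intro k hk j hq h
    have hL : M2Z.M.L = 51 := rfl
    rcases descent M2Z.M M2Z.okM 1 3 mkZ uXZ uYZ (mkZ k) (uXZ k) (uYZ k) (allZ k hk) z z imgZ adj'
      j q hq h with ⟨j', q', hq', ht, he⟩ | ⟨k', hk', j', q', hq', ht, he⟩
    · rw [hL] at he
      by_cases h1 : q' = 1
      · subst h1
        exact no1 j' ht
      · exact ih q' (by omega) 0 (by norm_num) j' hq' ht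
    · rw [hL] at he
      exact ih q' (by omega) k' hk' j' hq' ht

/-- table of the factors of length two -/
def F2 (a b : ℕ) : Bool := Nat.testBit 9205177249041219070 (Nat.add (Nat.mul 8 a) b)

theorem f21 : allB 8 (fun a => allB 50 fun r => F2 (M2Z.G a r) (M2Z.G a (r + 1))) = true := by
  decide +kernel

theorem f22 : allB 8 (fun a => allB 8 fun b => or (not (F2 a b))
    (F2 (M2Z.G a 50) (M2Z.G b 0))) = true := by
  decide +kernel

theorem f2 (n : ℕ) : F2 (z n) (z (n + 1)) = true := by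
  induction n using Nat.strong_induction_on with
  | _ n ih =>
    obtain ⟨m, r, hr, e⟩ : ∃ m r, r < 51 ∧ 51 * m + r = n :=
      ⟨n / 51, n % 51, Nat.mod_lt _ (by norm_num), Nat.div_add_mod _ _⟩
    by_cases h : r = 50
    · subst h
      have h1 : n + 1 = 51 * (m + 1) + 0 := by omega
      rw [h1, z_img _ 0 (by norm_num), ← e, z_img _ 50 (by norm_num)]
      have h2 := allB_spec _ _ (allB_spec _ _ f22 (z m) (z_lt m)) (z (m + 1)) (z_lt _)
      have h3 := ih m (by omega)
      rw [h3] at h2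
      simpa using h2
    · have h1 : n + 1 = 51 * m + (r + 1) := by omega
      rw [h1, z_img _ (r + 1) (by omega), ← e, z_img _ r hr]
      exact allB_spec _ _ (allB_spec _ _ f21 (z m) (z_lt m)) r (by omega)

/-- no progression in the plane, anchored forms -/
theorem noZ' (k : ℕ) (hk : k < 3) (m0 m1 m2 : ℕ) (h01 : m0 < m1) (h : m0 + m2 = 2 * m1)
    (k0 : mkZ k (z m0) = true) (k1 : mkZ k (z m1) = true) (k2 : mkZ k (z m2) = true)
    (hX : S vX z m0 + S vX z m2 = 2 * S vX z m1)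
    (hY : (S vY z m0 + uYZ k (z m0)) + (S vY z m2 + uYZ k (z m2)) =
      2 * (S vY z m1 + uYZ k (z m1))) : False := by
  obtain ⟨q, rfl⟩ : ∃ q, m1 = m0 + q := ⟨m1 - m0, by omega⟩
  obtain rfl : m2 = m0 + 2 * q := by omega
  apply noZ q k hk m0 (by omega)
  refine ⟨⟨k0, k1, k2⟩, ?_, ?_⟩
  · unfold V uXZ
    simpa using hX
  · unfold V
    exact hY

section Words

variable (L : ℕ) (w : ℕ → ℕ → ℕ)

/-- the binary word -/
def t (n : ℕ) : ℕ := w (z (n / L)) (n % L)

/-- product of two consecutive letters -/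
def p (n : ℕ) : ℕ := t L w (n - 1) * t L w n

/-- prefix counts -/
def X (n : ℕ) : ℕ := ∑ k ∈ range n, t L w k

/-- prefix counts of pairs -/
def Y (n : ℕ) : ℕ := ∑ k ∈ range n, p L w k

/-- local prefix counts -/
def Xl (a r : ℕ) : ℕ := ∑ k ∈ range r, w a k

/-- local prefix counts of pairs -/
def Yl (a r : ℕ) : ℕ := ∑ k ∈ range r, w a (k - 1) * w a k

/-- letter after a node -/
def la (a j : ℕ) : ℕ := if j + 1 < L then w a (j + 1) else 0

/-- letter before a node -/
def lb (a j : ℕ) : ℕ := w a j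

/-- The shape of a map. -/
structure Shape where
  /-- coordinate -/
  eAx : ℤ
  /-- coordinate -/
  eAy : ℤ
  /-- coordinate -/
  eCx : ℤ
  /-- coordinate -/
  eCy : ℤ
  /-- coordinate -/
  bx : ℤ
  /-- coordinate -/
  by' : ℤ

variable (s : Shape)

/-- end values of the images -/
structure EndOk : Prop where
  L1 : 1 < L
  w0 : ∀ a < 8, w a 0 = 0
  x : ∀ a < 8, (Xl w a L : ℤ) = s.bx + s.eCx * vX a + s.eAx * vY a
  y : ∀ a < 8, (Yl w a L : ℤ) = s.by' + s.eCy * vX a + s.eAy * vY a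

variable {L w s}

theorem t_img (hL : 0 < L) (P r : ℕ) (hr : r < L) : t L w (L * P + r) = w (z P) r := by
  unfold t
  rw [Nat.mul_add_div hL, Nat.div_eq_of_lt hr, Nat.mul_add_mod, Nat.mod_eq_of_lt hr,
    Nat.add_zero]

theorem t_img0 (h : EndOk L w s) (P : ℕ) : t L w (L * P) = 0 := by
  have h1 := t_img (w := w) (L := L) (by have := h.L1; omega) P 0 (by have := h.L1; omega)
  rw [Nat.add_zero] at h1
  rw [h1, h.w0 _ (z_lt _)]

theorem p_img (h : EndOk L w s) (P r : ℕ) (hr : r < L) :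
    p L w (L * P + r) = w (z P) (r - 1) * w (z P) r := by
  have hL : 0 < L := by have := h.L1; omega
  unfold p
  rw [t_img hL P r hr]
  cases r with
  | zero => rw [h.w0 _ (z_lt _)]; simp
  | succ r =>
    rw [show L * P + (r + 1) - 1 = L * P + r by omega, t_img hL P r (by omega)]
    rfl

theorem X_img (h : EndOk L w s) (P r : ℕ) (hr : r ≤ L) :
    (X L w (L * P + r) : ℤ) =
      s.bx * P + s.eCx * S vX z P + s.eAx * S vY z P + Xl w (z P) r := by
  have hL : 0 < L := by have := h.L1; omega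
  have inner : ∀ P, (X L w (L * P) : ℤ) = s.bx * P + s.eCx * S vX z P + s.eAx * S vY z P →
      ∀ r, r ≤ L → (X L w (L * P + r) : ℤ) =
      s.bx * P + s.eCx * S vX z P + s.eAx * S vY z P + Xl w (z P) r := by
    intro P hP r
    induction r with
    | zero => intro _; simp [hP, Xl]
    | succ r ih =>
      intro hr
      have h1 := ih (by omega)
      have h2 : X L w (L * P + (r + 1)) = X L w (L * P + r) + w (z P) r := by
        rw [← t_img (w := w) hL P r (by omega)]
        unfold X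
        rw [← Nat.add_assoc, sum_range_succ]
      have h3 : Xl w (z P) (r + 1) = Xl w (z P) r + w (z P) r := by
        unfold Xl
        rw [sum_range_succ]
      rw [h2, h3]
      push_cast
      rw [h1]
      ring
  have base : ∀ P, (X L w (L * P) : ℤ) = s.bx * P + s.eCx * S vX z P + s.eAx * S vY z P := by
    intro P
    induction P with
    | zero => simp [X, S]
    | succ P ih =>
      have h1 := inner P ih L (le_refl _)
      rw [Nat.mul_succ, h1, S_succ, S_succ, h.x _ (z_lt P)]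
      push_cast
      ring
  exact inner P (base P) r hr

theorem Y_img (h : EndOk L w s) (P r : ℕ) (hr : r ≤ L) :
    (Y L w (L * P + r) : ℤ) =
      s.by' * P + s.eCy * S vX z P + s.eAy * S vY z P + Yl w (z P) r := by
  have inner : ∀ P, (Y L w (L * P) : ℤ) = s.by' * P + s.eCy * S vX z P + s.eAy * S vY z P →
      ∀ r, r ≤ L → (Y L w (L * P + r) : ℤ) =
      s.by' * P + s.eCy * S vX z P + s.eAy * S vY z P + Yl w (z P) r := by
    intro P hP r
    induction r with
    | zero => intro _; simp [hP, Yl]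
    | succ r ih =>
      intro hr
      have h1 := ih (by omega)
      have h2 : Y L w (L * P + (r + 1)) = Y L w (L * P + r) + w (z P) (r - 1) * w (z P) r := by
        rw [← p_img h P r (by omega)]
        unfold Y
        rw [← Nat.add_assoc, sum_range_succ]
      have h3 : Yl w (z P) (r + 1) = Yl w (z P) r + w (z P) (r - 1) * w (z P) r := by
        unfold Yl
        rw [sum_range_succ]
      rw [h2, h3]
      push_cast
      rw [h1]
      ring
  have base : ∀ P, (Y L w (L * P) : ℤ) = s.by' * P + s.eCy * S vX z P + s.eAy * S vY z P := by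
    intro P
    induction P with
    | zero => simp [Y, S]
    | succ P ih =>
      have h1 := inner P ih L (le_refl _)
      rw [Nat.mul_succ, h1, S_succ, S_succ, h.y _ (z_lt P)]
      push_cast
      ring
  exact inner P (base P) r hr

/-- decomposition of a position into a block and a node -/
theorem decomp (h : EndOk L w s) (i : ℕ) (hi : 1 ≤ i) :
    ∃ P j, j < L ∧ i = L * P + (j + 1) ∧ t L w i = la L w (z P) j ∧ t L w (i - 1) = lb w (z P) j ∧
      (X L w i : ℤ) = s.bx * P + s.eCx * S vX z P + s.eAx * S vY z P + Xl w (z P) (j + 1) ∧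
      (Y L w i : ℤ) = s.by' * P + s.eCy * S vX z P + s.eAy * S vY z P + Yl w (z P) (j + 1) ∧
      p L w i = lb w (z P) j * la L w (z P) j := by
  have hL : 0 < L := by have := h.L1; omega
  obtain ⟨P, j, hj, e'⟩ : ∃ P j, j < L ∧ L * P + j = i - 1 :=
    ⟨(i - 1) / L, (i - 1) % L, Nat.mod_lt _ hL, Nat.div_add_mod _ _⟩
  have e : i = L * P + (j + 1) := by omega
  have e1 : t L w (i - 1) = lb w (z P) j := by
    rw [← e', t_img hL P j hj]
    rfl
  have e2 : t L w i = la L w (z P) j := by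
    unfold la
    by_cases hj' : j + 1 < L
    · rw [if_pos hj', e, t_img hL P (j + 1) hj']
    · rw [if_neg hj', e, show L * P + (j + 1) = L * (P + 1) by
        rw [Nat.mul_succ]; omega, t_img0 h]
  refine ⟨P, j, hj, e, e2, e1, ?_, ?_, ?_⟩
  · rw [e]; exact X_img h P (j + 1) (by omega)
  · rw [e]; exact Y_img h P (j + 1) (by omega)
  · unfold p
    rw [e1, e2]

/-- anchored progressions at the upper level -/
def G1 (a0 a1 a2 : ℕ) (ep DX DY : ℤ) (c0 c1 c2 : ℤ) : Prop :=
  ep + c0 + c2 - 2 * c1 = 0 ∧ DX + c0 * vX a0 + c2 * vX a2 - 2 * c1 * vX a1 = 0 ∧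
    DY + c0 * vY a0 + c2 * vY a2 - 2 * c1 * vY a1 = 0

/-- shifted progressions at the upper level -/
def G2 (a0 a1 a2 : ℕ) (ep DX DY : ℤ) (k : ℕ) : Prop :=
  ep = 0 ∧ mkZ k a0 = true ∧ mkZ k a1 = true ∧ mkZ k a2 = true ∧ DX = 0 ∧
    DY + uYZ k a0 + uYZ k a2 - 2 * uYZ k a1 = 0

/-- neighbouring blocks -/
def Near (a0 a1 a2 : ℕ) (ep DX DY : ℤ) : Prop :=
  (ep = 0 ∧ a0 = a1 ∧ a1 = a2 ∧ DX = 0 ∧ DY = 0) ∨
  (ep = 1 ∧ a0 = a1 ∧ F2 a1 a2 = true ∧ DX = vX a0 ∧ DY = vY a0) ∨
  (ep = -1 ∧ a1 = a2 ∧ F2 a0 a1 = true ∧ DX = -vX a0 ∧ DY = -vY a0)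

/-- The value of the upper level is harmless. -/
def GoodD (a0 a1 a2 : ℕ) (ep DX DY : ℤ) (long : Prop) : Prop :=
  ((∃ c0 < 2, ∃ c1 < 2, ∃ c2 < 2, G1 a0 a1 a2 ep DX DY ((c0 : ℕ) : ℤ) ((c1 : ℕ) : ℤ)
      ((c2 : ℕ) : ℤ)) ∨
    (∃ k < 3, G2 a0 a1 a2 ep DX DY k)) ∧ ¬ (long ∧ Near a0 a1 a2 ep DX DY)

/-- long distance between nodes -/
def Long (K j0 j1 j2 : ℕ) (ep : ℤ) : Prop :=
  (ep = -1 ∧ j1 + K ≤ j2) ∨ (ep ≠ -1 ∧ j0 + K ≤ j1)

variable (L w s)

/-- the hypothesis checked by computation -/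
def AllG (K : ℕ) : Prop :=
  ∀ a0 a1 a2 j0 j1 j2 : ℕ, ∀ ep DX DY : ℤ, a0 < 8 → a1 < 8 → a2 < 8 → j0 < L → j1 < L → j2 < L →
    (2 * j1 - j0 - j2 : ℤ) = ep * L →
    la L w a0 j0 = la L w a1 j1 → lb w a1 j1 = lb w a2 j2 →
    s.bx * ep + s.eCx * DX + s.eAx * DY +
      ((Xl w a0 (j0 + 1) : ℤ) + Xl w a2 (j2 + 1) - 2 * Xl w a1 (j1 + 1)) = 0 →
    s.by' * ep + s.eCy * DX + s.eAy * DY +
      ((Yl w a0 (j0 + 1) : ℤ) + lb w a0 j0 * la L w a0 j0 + Yl w a2 (j2 + 1) -
        2 * Yl w a1 (j1 + 1) - lb w a1 j1 * la L w a1 j1) = 0 →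
    GoodD a0 a1 a2 ep DX DY (Long K j0 j1 j2 ep)

variable {L w s}

theorem mono' {P0 P1 j0 j1 : ℕ} (h1 : j1 < L)
    (h : L * P0 + (j0 + 1) ≤ L * P1 + (j1 + 1)) : P0 ≤ P1 := by
  by_contra hcon
  push Not at hcon
  have h1 : L * (P1 + 1) ≤ L * P0 := Nat.mul_le_mul_left L hcon
  have h2 : L * (P1 + 1) = L * P1 + L := by ring
  omega

/-- The descent. -/
theorem noLong (K : ℕ) (hK : 0 < K) (h : EndOk L w s) (hA : AllG L w s K) (i n : ℕ)
    (hi : 1 ≤ i) (hn : K ≤ n)
    (e1 : X L w i + X L w (i + 2 * n) = 2 * X L w (i + n))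
    (e2 : Y L w i + p L w i + Y L w (i + 2 * n) = 2 * Y L w (i + n) + p L w (i + n))
    (e3 : t L w i = t L w (i + n)) (e4 : t L w (i + n - 1) = t L w (i + 2 * n - 1)) : False := by
  obtain ⟨P0, j0, hj0, q0, a0, b0, x0, y0, p0⟩ := decomp h i hi
  obtain ⟨P1, j1, hj1, q1, a1, b1, x1, y1, p1⟩ := decomp h (i + n) (by omega)
  obtain ⟨P2, j2, hj2, q2, a2, b2, x2, y2, p2⟩ := decomp h (i + 2 * n) (by omega)
  have m01 : P0 ≤ P1 := mono' (j0 := j0) (j1 := j1) hj1 (by omega)
  have m12 : P1 ≤ P2 := mono' (j0 := j1) (j1 := j2) hj2 (by omega)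
  have hq : ((L : ℤ) * P0 + (j0 + 1)) + (L * P2 + (j2 + 1)) = 2 * (L * P1 + (j1 + 1)) := by
    have : (L * P0 + (j0 + 1)) + (L * P2 + (j2 + 1)) = 2 * (L * P1 + (j1 + 1)) := by omega
    exact_mod_cast this
  have hg := hA (z P0) (z P1) (z P2) j0 j1 j2 ((P0 : ℤ) + P2 - 2 * P1)
    ((S vX z P0 : ℤ) + S vX z P2 - 2 * S vX z P1) ((S vY z P0 : ℤ) + S vY z P2 - 2 * S vY z P1)
    (z_lt _) (z_lt _) (z_lt _) hj0 hj1 hj2 (by linear_combination (-1 : ℤ) * hq)
    (by rw [← a0, ← a1]; exact e3) (by rw [← b1, ← b2]; exact e4)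
    (by
      have : (X L w i : ℤ) + X L w (i + 2 * n) = 2 * X L w (i + n) := by exact_mod_cast e1
      rw [x0, x1, x2] at this
      linear_combination this)
    (by
      have : (Y L w i : ℤ) + p L w i + Y L w (i + 2 * n) = 2 * Y L w (i + n) + p L w (i + n) := by
        exact_mod_cast e2
      rw [y0, y1, y2, p0, p1] at this
      push_cast at this
      linear_combination this)
  obtain ⟨hgood, hnear⟩ := hg
  rcases hgood with ⟨c0, hc0, c1, hc1, c2, hc2, g1, g2, g3⟩ | ⟨k, hk, g1, g2, g3, g4, g5, g6⟩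
  · have hP : (P0 + c0) + (P2 + c2) = 2 * (P1 + c1) := by
      have : ((P0 : ℤ) + c0) + (P2 + c2) = 2 * (P1 + c1) := by linear_combination g1
      exact_mod_cast this
    have hs : ∀ (c x : ℕ → ℕ) (m s : ℕ), s < 2 → (S c x (m + s) : ℤ) = S c x m + s * c (x m) := by
      intro c x m s hs
      rw [S_shift c x m s hs]
      push_cast
      ring
    rcases Nat.lt_trichotomy (P0 + c0) (P1 + c1) with hlt | heq | hgt
    · apply noZ' 0 (by norm_num) (P0 + c0) (P1 + c1) (P2 + c2) hlt hP rfl rfl rfl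
      · have : (S vX z (P0 + c0) : ℤ) + S vX z (P2 + c2) = 2 * S vX z (P1 + c1) := by
          rw [hs _ _ _ _ hc0, hs _ _ _ _ hc1, hs _ _ _ _ hc2]
          linear_combination g2
        exact_mod_cast this
      · have : (S vY z (P0 + c0) : ℤ) + S vY z (P2 + c2) = 2 * S vY z (P1 + c1) := by
          rw [hs _ _ _ _ hc0, hs _ _ _ _ hc1, hs _ _ _ _ hc2]
          linear_combination g3
        have h0 : ∀ a, uYZ 0 a = 0 := fun a => rfl
        rw [h0, h0, h0]
        simpa using (by exact_mod_cast this :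
          S vY z (P0 + c0) + S vY z (P2 + c2) = 2 * S vY z (P1 + c1))
    · have hc : (P0 = P1 ∧ P1 = P2) ∨ (P0 = P1 ∧ P2 = P1 + 1) ∨ (P1 = P0 + 1 ∧ P2 = P1) := by
        omega
      apply hnear
      rcases hc with ⟨r1, r2⟩ | ⟨r1, r2⟩ | ⟨r1, r2⟩
      · subst r1 r2
        refine ⟨Or.inr ⟨by push_cast; omega, by omega⟩, Or.inl ⟨by push_cast; ring, rfl, rfl, by ring, by ring⟩⟩
      · subst r1 r2
        refine ⟨Or.inr ⟨by push_cast; omega, by omega⟩, Or.inr (Or.inl ⟨by push_cast; ring, rfl, f2 _, ?_, ?_⟩)⟩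
        · rw [S_succ]; push_cast; ring
        · rw [S_succ]; push_cast; ring
      · subst r2
        rw [r1] at *
        refine ⟨Or.inl ⟨by push_cast; ring, by omega⟩, Or.inr (Or.inr ⟨by push_cast; ring, rfl, f2 _, ?_, ?_⟩)⟩
        · rw [S_succ]; push_cast; ring
        · rw [S_succ]; push_cast; ring
    · omega
  · have hP : P0 + P2 = 2 * P1 := by
      have : (P0 : ℤ) + P2 = 2 * P1 := by linear_combination g1
      exact_mod_cast this
    rcases Nat.lt_or_ge P0 P1 with hlt | hge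
    · apply noZ' k hk P0 P1 P2 hlt hP g2 g3 g4
      · have : (S vX z P0 : ℤ) + S vX z P2 = 2 * S vX z P1 := by linear_combination g5
        exact_mod_cast this
      · have : ((S vY z P0 : ℤ) + uYZ k (z P0)) + (S vY z P2 + uYZ k (z P2)) =
          2 * (S vY z P1 + uYZ k (z P1)) := by linear_combination g6
        exact_mod_cast this
    · have r1 : P0 = P1 := by omega
      have r2 : P1 = P2 := by omega
      subst r1 r2
      apply hnear
      refine ⟨Or.inr ⟨by push_cast; omega, by omega⟩, Or.inl ⟨by push_cast; ring, rfl, rfl, by ring, by ring⟩⟩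

end Words

end Pool.Agent.H188.Ab
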