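import Mathlib
import Pool.Agent.H188.Ab.Pack
import Pool.Agent.H188.Ab.Word

set_option autoImplicit false

/-!
The checker for a uniform map given by packed arrays, and its soundness.
-/

namespace Pool.Agent.H188.Ab

open Finset Pool.Agent.H549R3.Chk Pool.Agent.H549R3.M2.Fam

/-- track of a letter in a zone -/
def tr (a zo : ℕ) : ℕ :=
  match zo with
  | 0 => 0
  | 1 => Nat.div a 4
  | 2 => Nat.div a 2
  | 3 => Nat.mod (Nat.div a 2) 2
  | 4 => Nat.mod a 4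
  | _ => Nat.mod a 2

/-- shift coefficient of a letter in a zone -/
def sX (a zo : ℕ) : ℕ :=
  match zo with
  | 0 => 0
  | 1 => 0
  | 2 => 0
  | 3 => 0
  | 4 => 0
  | _ => Nat.mod (Nat.div a 2) 2

/-- shift coefficient of a letter in a zone -/
def sY (a zo : ℕ) : ℕ :=
  match zo with
  | 0 => 0
  | 1 => 0
  | 2 => 0
  | 3 => Nat.div a 4
  | 4 => Nat.div a 4
  | _ => Nat.add (Nat.div a 4) (Nat.mod (Nat.div a 2) 2)

/-- number of tracks of a zone -/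
def nT (zo : ℕ) : ℕ :=
  match zo with
  | 0 => 1
  | 1 => 2
  | 2 => 4
  | 3 => 2
  | 4 => 4
  | _ => 2

/-- one of four values -/
def sel (A B C D : ℕ) : ℕ → ℕ
  | 0 => A
  | 1 => B
  | 2 => C
  | _ => D

/-- Data of a map. -/
structure Dat where
  /-- length of the images -/
  L : ℕ
  /-- field width -/
  W : ℕ
  /-- bits of a residue -/
  kp : ℕ
  /-- smallest excluded period -/
  K : ℕ
  /-- zone bound -/
  n1 : ℕ
  /-- zone bound -/
  n2 : ℕ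
  /-- zone bound -/
  n3 : ℕ
  /-- zone bound -/
  n4 : ℕ
  /-- zone bound -/
  n5 : ℕ
  /-- ones -/
  ONES : ℕ
  /-- ones times the largest residue -/
  LOW : ℕ
  /-- ones times the modulus -/
  BIT : ℕ
  /-- letters after the nodes -/
  LA : ℕ → ℕ
  /-- letters before the nodes -/
  LB : ℕ → ℕ
  /-- residues of the nodes -/
  EP : ℕ → ℕ
  /-- coordinates of the nodes -/
  XC : ℕ → ℕ
  /-- coordinates of the nodes -/
  YC : ℕ → ℕ
  /-- residues, first role -/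
  SS : ℕ → ℕ
  /-- residues, last role -/
  EE : ℕ → ℕ
  /-- residues, middle role, negated -/
  MM : ℕ → ℕ
  /-- coefficient -/
  A1 : ℕ
  /-- coefficient -/
  A2 : ℕ
  /-- coefficient -/
  A3 : ℕ
  /-- offset -/
  OFF : ℕ
  /-- shape -/
  s : Shape
  /-- determinant -/
  det : ℤ
  /-- depth of the scan -/
  dep : ℕ

namespace Dat

variable (D : Dat)

/-- zone bounds -/
def bnd (zo : ℕ) : ℕ :=
  match zo with
  | 0 => 0
  | 1 => D.n1
  | 2 => D.n2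
  | 3 => D.n3
  | 4 => D.n4
  | 5 => D.n5
  | _ => D.L

/-- zone of a node -/
def zn (j : ℕ) : ℕ :=
  match Nat.blt j D.n3 with
  | true => match Nat.blt j D.n1 with
    | true => 0
    | false => match Nat.blt j D.n2 with
      | true => 1
      | false => 2
  | false => match Nat.blt j D.n4 with
    | true => 3
    | false => match Nat.blt j D.n5 with
      | true => 4
      | false => 5

/-- mask of a zone -/
def zm (zo : ℕ) : ℕ := ZM D.W (D.bnd zo) (D.bnd (Nat.succ zo))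

/-- array of a letter from the arrays of the tracks -/
def comb (C : ℕ → ℕ) (a : ℕ) : ℕ :=
  Nat.lor (Nat.land (C (tr a 0)) (D.zm 0)) (Nat.lor (Nat.land (C (tr a 1)) (D.zm 1))
    (Nat.lor (Nat.land (C (tr a 2)) (D.zm 2)) (Nat.lor (Nat.land (C (tr a 3)) (D.zm 3))
      (Nat.lor (Nat.land (C (tr a 4)) (D.zm 4)) (Nat.land (C (tr a 5)) (D.zm 5))))))

/-- array with constant value on each zone -/
def combC (C : ℕ → ℕ) : ℕ :=
  Nat.lor (Nat.land (Nat.mul (C 0) D.ONES) (D.zm 0))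
    (Nat.lor (Nat.land (Nat.mul (C 1) D.ONES) (D.zm 1))
    (Nat.lor (Nat.land (Nat.mul (C 2) D.ONES) (D.zm 2))
      (Nat.lor (Nat.land (Nat.mul (C 3) D.ONES) (D.zm 3))
      (Nat.lor (Nat.land (Nat.mul (C 4) D.ONES) (D.zm 4))
        (Nat.land (Nat.mul (C 5) D.ONES) (D.zm 5))))))

/-- offset of the coordinate of a letter in a zone -/
def OX (a zo : ℕ) : ℕ := (D.OFF + sX a zo * D.s.eCx + sY a zo * D.s.eAx).toNat

/-- offset of the coordinate of a letter in a zone -/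
def OY (a zo : ℕ) : ℕ := (D.OFF + sX a zo * D.s.eCy + sY a zo * D.s.eAy).toNat

/-- the letters of an image -/
def w (a r : ℕ) : ℕ := fld D.W (D.comb D.LB a) r

/-- valid fields of a track -/
def val (c : ℕ) : ℕ :=
  Nat.lor (Nat.mul (cond (Nat.blt c (nT 0)) 1 0) (D.zm 0))
    (Nat.lor (Nat.mul (cond (Nat.blt c (nT 1)) 1 0) (D.zm 1))
    (Nat.lor (Nat.mul (cond (Nat.blt c (nT 2)) 1 0) (D.zm 2))
      (Nat.lor (Nat.mul (cond (Nat.blt c (nT 3)) 1 0) (D.zm 3))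
      (Nat.lor (Nat.mul (cond (Nat.blt c (nT 4)) 1 0) (D.zm 4))
        (Nat.mul (cond (Nat.blt c (nT 5)) 1 0) (D.zm 5))))))

/-- bound check -/
def bb (C A : ℕ) : Bool := Nat.beq (Nat.land A (Nat.mul C D.ONES)) A

/-- checks of numbers -/
def ck0 : Bool :=
  and (Nat.beq (Nat.add (Nat.mul (Nat.sub (Nat.pow 2 D.W) 1) D.ONES) 1)
    (Nat.pow 2 (Nat.mul D.W D.L)))
  (and (Nat.beq D.LOW (Nat.mul (Nat.sub (Nat.pow 2 D.kp) 1) D.ONES))
  (and (Nat.beq D.BIT (Nat.mul (Nat.pow 2 D.kp) D.ONES))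
  (and (Nat.beq D.W (Nat.add D.kp 2))
  (and (Nat.ble D.n1 D.n2) (and (Nat.ble D.n2 D.n3) (and (Nat.ble D.n3 D.n4)
  (and (Nat.ble D.n4 D.n5) (and (Nat.ble D.n5 D.L) (and (Nat.blt 1 D.n1)
  (and (Nat.blt D.A1 (Nat.pow 2 D.kp)) (and (Nat.blt D.A2 (Nat.pow 2 D.kp))
  (and (Nat.blt D.A3 (Nat.pow 2 D.kp)) (and (Nat.blt 5 D.kp)
  (and (Nat.ble D.L (Nat.pow 2 D.dep)) (and (Nat.blt 0 D.K)
  (Nat.blt (Nat.mul 2 D.K) D.L))))))))))))))))

/-- checks of the arrays of a track -/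
def ckB (c : ℕ) : Bool :=
  and (D.bb 1 (D.LA c)) (and (D.bb 1 (D.LB c)) (and (D.bb (Nat.sub (Nat.pow 2 D.kp) 1) (D.EP c))
  (and (D.bb (Nat.sub (Nat.pow 2 D.kp) 1) (D.SS c))
  (and (D.bb (Nat.sub (Nat.pow 2 D.kp) 1) (D.EE c))
  (and (D.bb (Nat.sub (Nat.pow 2 D.kp) 1) (D.MM c))
  (and (D.bb (Nat.sub (Nat.pow 2 D.kp) 1) (D.XC c))
  (D.bb (Nat.sub (Nat.pow 2 D.kp) 1) (D.YC c))))))))

/-- checks of the role arrays of a track -/
def ckC (c : ℕ) : Bool :=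
  and (Nat.beq (Nat.land (Nat.xor (Nat.land (Nat.add (D.EP c)
      (Nat.add (Nat.mul D.A2 (Nat.land (D.LA c) (D.LB c))) (Nat.mul 4 (D.LA c)))) D.LOW) (D.SS c))
      (D.val c)) 0)
  (and (Nat.beq (Nat.land (Nat.xor (Nat.land (Nat.add (D.EP c) (Nat.mul 8 (D.LB c))) D.LOW)
      (D.EE c)) (D.val c)) 0)
  (Nat.beq (Nat.land (Nat.land (Nat.add (D.MM c) (Nat.land
      (Nat.add (Nat.mul 2 (D.EP c)) (Nat.add (Nat.mul D.A2 (Nat.land (D.LA c) (D.LB c)))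
        (Nat.add (Nat.mul 4 (D.LA c)) (Nat.mul 8 (D.LB c))))) D.LOW)) D.LOW)
      (D.val c)) 0))

/-- check of a letter, shift of the letters -/
def ckL (LBL LAL : ℕ) : Bool :=
  and (Nat.beq (Nat.shiftRight LBL D.W) LAL) (Nat.beq (Nat.mod LBL (Nat.pow 2 D.W)) 0)

/-- check of a letter, a coordinate -/
def ckX (XL IN : ℕ) (e : ℤ) : Bool :=
  and (Nat.beq (Nat.shiftRight XL D.W)
    (Nat.mod (Nat.add XL IN) (Nat.pow 2 (Nat.mul D.W (Nat.sub D.L 1)))))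
  (and (Nat.beq (Nat.mod XL (Nat.pow 2 D.W)) D.OFF)
    (decide ((fld D.W XL (Nat.sub D.L 1) : ℤ) = D.OFF + e)))

/-- check of a letter, the residues -/
def ckE (EPL LAL ABL : ℕ) : Bool :=
  and (Nat.beq (Nat.shiftRight EPL D.W)
    (Nat.mod (Nat.land (Nat.add EPL (Nat.add (Nat.mul D.A1 LAL)
      (Nat.add (Nat.mul D.A2 ABL) (Nat.mul D.A3 D.ONES)))) D.LOW)
      (Nat.pow 2 (Nat.mul D.W (Nat.sub D.L 1)))))
  (Nat.beq (Nat.mod EPL (Nat.pow 2 D.W)) 0)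

/-- checks of a letter -/
def ckA (a : ℕ) : Bool :=
  and (D.ckL (D.comb D.LB a) (D.comb D.LA a))
  (and (D.ckX (Nat.add (D.comb D.XC a) (D.combC (D.OX a))) (D.comb D.LA a)
    (D.s.bx + D.s.eCx * vX a + D.s.eAx * vY a))
  (and (D.ckX (Nat.add (D.comb D.YC a) (D.combC (D.OY a)))
    (Nat.land (D.comb D.LB a) (D.comb D.LA a))
    (D.s.by' + D.s.eCy * vX a + D.s.eAy * vY a))
  (and (D.ckE (D.comb D.EP a) (D.comb D.LA a) (Nat.land (D.comb D.LB a) (D.comb D.LA a)))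
  (allB 6 fun zo => and (Nat.blt (D.OX a zo) (Nat.pow 2 D.kp))
    (and (Nat.blt (D.OY a zo) (Nat.pow 2 D.kp))
    (and (decide ((0 : ℤ) ≤ D.OFF + sX a zo * D.s.eCx + sY a zo * D.s.eAx))
      (decide ((0 : ℤ) ≤ D.OFF + sX a zo * D.s.eCy + sY a zo * D.s.eAy))))))))

/-- checks of the lattice -/
def ckS : Bool :=
  and (decide (D.det = D.s.eCx * D.s.eAy - D.s.eCy * D.s.eAx))
  (and (decide (((D.A1 : ℤ) * D.s.eCx + D.A2 * D.s.eCy) % 2 ^ D.kp = 0))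
  (and (decide (((D.A1 : ℤ) * D.s.eAx + D.A2 * D.s.eAy) % 2 ^ D.kp = 0))
  (and (decide (((D.A1 : ℤ) * D.s.bx + D.A2 * D.s.by' + D.A3 * D.L) % 2 ^ D.kp = 0))
  (decide ((2 * D.K + 2) * (D.s.eAx.natAbs + D.s.eAy.natAbs + D.s.eCx.natAbs + D.s.eCy.natAbs)
    < D.det.natAbs)))))

/-- all basic checks -/
structure Ok : Prop where
  h0 : D.ck0 = true
  hB : ∀ c < 4, D.ckB c = true
  hC : ∀ c < 4, D.ckC c = true
  hA : ∀ a < 8, D.ckA a = true
  hS : D.ckS = true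

end Dat

/-! ### keys -/

/-- anchored progression, boolean -/
def g1B (a0 a1 a2 : ℕ) (ep DX DY : ℤ) (c0 c1 c2 : ℤ) : Bool :=
  and (decide (ep + c0 + c2 - 2 * c1 = 0))
  (and (decide (DX + c0 * vX a0 + c2 * vX a2 - 2 * c1 * vX a1 = 0))
    (decide (DY + c0 * vY a0 + c2 * vY a2 - 2 * c1 * vY a1 = 0)))

/-- shifted progression, boolean -/
def g2B (a0 a1 a2 : ℕ) (ep DX DY : ℤ) (k : ℕ) : Bool :=
  and (decide (ep = 0)) (and (mkZ k a0) (and (mkZ k a1) (and (mkZ k a2)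
    (and (decide (DX = 0)) (decide (DY + uYZ k a0 + uYZ k a2 - 2 * uYZ k a1 = 0))))))

/-- neighbouring blocks, boolean -/
def nearB (a0 a1 a2 : ℕ) (ep DX DY : ℤ) : Bool :=
  or (and (decide (ep = 0)) (and (Nat.beq a0 a1) (and (Nat.beq a1 a2)
      (and (decide (DX = 0)) (decide (DY = 0))))))
  (or (and (decide (ep = 1)) (and (Nat.beq a0 a1) (and (F2 a1 a2)
      (and (decide (DX = vX a0)) (decide (DY = vY a0))))))
    (and (decide (ep = -1)) (and (Nat.beq a1 a2) (and (F2 a0 a1)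
      (and (decide (DX = -(vX a0 : ℤ))) (decide (DY = -(vY a0 : ℤ))))))))

/-- harmless value, boolean -/
def goodB (a0 a1 a2 : ℕ) (ep DX DY : ℤ) (lg : Bool) : Bool :=
  and (or (anyB 2 fun c0 => anyB 2 fun c1 => anyB 2 fun c2 =>
      g1B a0 a1 a2 ep DX DY ((c0 : ℕ) : ℤ) ((c1 : ℕ) : ℤ) ((c2 : ℕ) : ℤ))
      (anyB 3 fun k => g2B a0 a1 a2 ep DX DY k))
    (not (and lg (nearB a0 a1 a2 ep DX DY)))

theorem goodB_spec (a0 a1 a2 : ℕ) (ep DX DY : ℤ) (lg : Bool) (P : Prop) (hP : P → lg = true)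
    (h : goodB a0 a1 a2 ep DX DY lg = true) : GoodD a0 a1 a2 ep DX DY P := by
  unfold goodB at h
  rw [Bool.and_eq_true, Bool.or_eq_true] at h
  obtain ⟨h1, h2⟩ := h
  constructor
  · rcases h1 with h1 | h1
    · left
      obtain ⟨c0, hc0, h1⟩ := anyB_spec _ _ h1
      obtain ⟨c1, hc1, h1⟩ := anyB_spec _ _ h1
      obtain ⟨c2, hc2, h1⟩ := anyB_spec _ _ h1
      refine ⟨c0, hc0, c1, hc1, c2, hc2, ?_⟩
      simp only [g1B, Bool.and_eq_true, decide_eq_true_eq] at h1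
      exact h1
    · right
      obtain ⟨k, hk, h1⟩ := anyB_spec _ _ h1
      refine ⟨k, hk, ?_⟩
      simp only [g2B, Bool.and_eq_true, decide_eq_true_eq] at h1
      exact ⟨h1.1, h1.2.1, h1.2.2.1, h1.2.2.2.1, h1.2.2.2.2.1, h1.2.2.2.2.2⟩
  · rintro ⟨hp, hn⟩
    have hl := hP hp
    rw [hl] at h2
    have h3 : nearB a0 a1 a2 ep DX DY = true := by
      unfold nearB
      rcases hn with ⟨x1, x2, x3, x4, x5⟩ | ⟨x1, x2, x3, x4, x5⟩ | ⟨x1, x2, x3, x4, x5⟩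
      · subst x1 x2 x3 x4 x5; simp
      · subst x1 x2; simp [x3, x4, x5]
      · subst x1 x2; simp [x3, x4, x5]
    rw [h3] at h2
    simp at h2

theorem nbr (a : ℕ) : Nat.beq a a = true := by rw [Nat.beq_eq]

/-- check of a key -/
def okKey (q0 q1 q2 : ℕ) (ep gx gy : ℤ) (lg : Bool) : Bool :=
  allB 8 fun a0 => or (not (Nat.beq (tr a0 (Nat.div q0 4)) (Nat.mod q0 4))) (allB 8 fun a1 =>
    or (not (Nat.beq (tr a1 (Nat.div q1 4)) (Nat.mod q1 4))) (allB 8 fun a2 =>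
    or (not (Nat.beq (tr a2 (Nat.div q2 4)) (Nat.mod q2 4)))
    (goodB a0 a1 a2 ep
      (-(gx + sX a0 (Nat.div q0 4) + sX a2 (Nat.div q2 4) - 2 * sX a1 (Nat.div q1 4)))
      (-(gy + sY a0 (Nat.div q0 4) + sY a2 (Nat.div q2 4) - 2 * sY a1 (Nat.div q1 4))) lg)))

theorem okKey_spec (q0 q1 q2 : ℕ) (ep gx gy : ℤ) (lg : Bool) (h : okKey q0 q1 q2 ep gx gy lg = true)
    (a0 a1 a2 : ℕ) (h0 : a0 < 8) (h1 : a1 < 8) (h2 : a2 < 8)
    (t0 : tr a0 (q0 / 4) = q0 % 4) (t1 : tr a1 (q1 / 4) = q1 % 4) (t2 : tr a2 (q2 / 4) = q2 % 4) :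
    goodB a0 a1 a2 ep
      (-(gx + sX a0 (q0 / 4) + sX a2 (q2 / 4) - 2 * sX a1 (q1 / 4)))
      (-(gy + sY a0 (q0 / 4) + sY a2 (q2 / 4) - 2 * sY a1 (q1 / 4))) lg = true := by
  change tr a0 (Nat.div q0 4) = Nat.mod q0 4 at t0
  change tr a1 (Nat.div q1 4) = Nat.mod q1 4 at t1
  change tr a2 (Nat.div q2 4) = Nat.mod q2 4 at t2
  have g0 := allB_spec _ _ h a0 h0
  rw [t0, nbr, Bool.not_true, Bool.false_or] at g0
  have g1 := allB_spec _ _ g0 a1 h1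
  rw [t1, nbr, Bool.not_true, Bool.false_or] at g1
  have g2 := allB_spec _ _ g1 a2 h2
  rw [t2, nbr, Bool.not_true, Bool.false_or] at g2
  exact g2

end Pool.Agent.H188.Ab
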