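import Mathlib
import Pool.Agent.H188.Ab.Core

set_option autoImplicit false

/-!
Soundness of the checker, fields of the arrays.
-/

namespace Pool.Agent.H188.Ab

open Finset Pool.Agent.H549R3.Chk Pool.Agent.H549R3.M2.Fam

theorem bq' (a b : ℕ) : (Nat.beq a b = true) = (a = b) := by rw [Nat.beq_eq]

theorem bl' (a b : ℕ) : (Nat.ble a b = true) = (a ≤ b) := by rw [Nat.ble_eq]

theorem bt' (a b : ℕ) : (Nat.blt a b = true) = (a < b) := by
  unfold Nat.blt
  rw [Nat.ble_eq]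
  rfl

theorem bt'' (a b : ℕ) : (Nat.blt a b = false) = (¬ a < b) := by
  rw [← bt']
  cases Nat.blt a b <;> simp

namespace Dat

variable {D : Dat}

/-- numeric facts -/
structure Num (D : Dat) : Prop where
  ones : D.ONES = onesR D.W D.L
  low : D.LOW = (2 ^ D.kp - 1) * D.ONES
  bit : D.BIT = 2 ^ D.kp * D.ONES
  W : D.W = D.kp + 2
  n12 : D.n1 ≤ D.n2
  n23 : D.n2 ≤ D.n3
  n34 : D.n3 ≤ D.n4
  n45 : D.n4 ≤ D.n5
  n5L : D.n5 ≤ D.L
  n1 : 1 < D.n1
  A1 : D.A1 < 2 ^ D.kp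
  A2 : D.A2 < 2 ^ D.kp
  A3 : D.A3 < 2 ^ D.kp
  kp : 5 < D.kp
  dep : D.L ≤ 2 ^ D.dep
  K : 0 < D.K
  KL : 2 * D.K < D.L

theorem num (h : D.ck0 = true) : Num D := by
  simp only [ck0, Bool.and_eq_true, bq', bl', bt'] at h
  obtain ⟨h1, h2, h3, h4, h5, h6, h7, h8, h9, h10, h11, h12, h13, h14, h15, h16, h17⟩ := h
  refine ⟨?_, h2, h3, h4, h5, h6, h7, h8, h9, h10, h11, h12, h13, h14, h15, h16, h17⟩
  apply onesR_unique _ _ _ (by rw [h4]; exact Nat.succ_pos _)
  exact h1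

theorem Num.W0 (h : Num D) : 0 < D.W := by rw [h.W]; omega

theorem Num.pW (h : Num D) : 2 ^ D.W = 4 * 2 ^ D.kp := by
  rw [h.W, Nat.pow_add]
  ring

theorem Num.fones (h : Num D) (j : ℕ) : fld D.W D.ONES j = if j < D.L then 1 else 0 := by
  rw [h.ones, fld_onesR _ _ _ h.W0]

theorem Num.fcones (h : Num D) (c j : ℕ) (hc : c < 2 ^ D.W) :
    fld D.W (c * D.ONES) j = if j < D.L then c else 0 := by
  rw [fld_mul, h.fones]
  · split_ifs <;> simp
  · intro j
    rw [h.fones]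
    split_ifs
    · simpa using hc
    · simp

theorem Num.flow (h : Num D) (j : ℕ) : fld D.W D.LOW j = if j < D.L then 2 ^ D.kp - 1 else 0 := by
  have h2 := h.pW
  have h3 : 2 ^ D.kp - 1 < 2 ^ D.W := by
    have : 0 < 2 ^ D.kp := by positivity
    omega
  rw [h.low, h.fcones _ _ h3]

theorem Num.fbit (h : Num D) (j : ℕ) : fld D.W D.BIT j = if j < D.L then 2 ^ D.kp else 0 := by
  rw [h.bit, h.fcones]
  have := h.pW
  have : 0 < 2 ^ D.kp := by positivity
  omega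

/-- fields bounded by a constant -/
theorem bb_spec (h : Num D) (C A : ℕ) (hC : C < 2 ^ D.W) (hb : D.bb C A = true) (j : ℕ) :
    fld D.W A j ≤ C ∧ (D.L ≤ j → fld D.W A j = 0) := by
  unfold bb at hb
  rw [bq'] at hb
  have h1 : fld D.W (A &&& (C * D.ONES)) j = fld D.W A j := by
    congr 1
  rw [fld_land, h.fcones C j hC] at h1
  by_cases hj : j < D.L
  · rw [if_pos hj] at h1
    refine ⟨?_, fun h => absurd h (by omega)⟩
    rw [← h1]
    exact Nat.and_le_right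
  · rw [if_neg hj, Nat.and_zero] at h1
    refine ⟨by omega, fun _ => h1.symm⟩

theorem zn_lt (j : ℕ) : D.zn j < 6 := by
  unfold zn
  split <;> split <;> try split
  all_goals norm_num

theorem zn_iff (h : Num D) (j zo : ℕ) (hz : zo < 6) :
    (D.bnd zo ≤ j ∧ j < D.bnd (Nat.succ zo)) ↔ (j < D.L ∧ D.zn j = zo) := by
  have e1 := h.n12
  have e2 := h.n23
  have e3 := h.n34
  have e4 := h.n45
  have e5 := h.n5L
  have hz' : zo = 0 ∨ zo = 1 ∨ zo = 2 ∨ zo = 3 ∨ zo = 4 ∨ zo = 5 := by omega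
  have b0 : D.bnd 0 = 0 := rfl
  have b1 : D.bnd (Nat.succ 0) = D.n1 := rfl
  have b2 : D.bnd (Nat.succ 1) = D.n2 := rfl
  have b3 : D.bnd (Nat.succ 2) = D.n3 := rfl
  have b4 : D.bnd (Nat.succ 3) = D.n4 := rfl
  have b5 : D.bnd (Nat.succ 4) = D.n5 := rfl
  have b6 : D.bnd (Nat.succ 5) = D.L := rfl
  have b1' : D.bnd 1 = D.n1 := rfl
  have b2' : D.bnd 2 = D.n2 := rfl
  have b3' : D.bnd 3 = D.n3 := rfl
  have b4' : D.bnd 4 = D.n4 := rfl
  have b5' : D.bnd 5 = D.n5 := rfl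
  have hzn : (j < D.n1 → D.zn j = 0) ∧ (D.n1 ≤ j → j < D.n2 → D.zn j = 1) ∧
      (D.n2 ≤ j → j < D.n3 → D.zn j = 2) ∧ (D.n3 ≤ j → j < D.n4 → D.zn j = 3) ∧
      (D.n4 ≤ j → j < D.n5 → D.zn j = 4) ∧ (D.n5 ≤ j → D.zn j = 5) := by
    unfold zn
    rcases hb3 : Nat.blt j D.n3 with _ | _ <;> rcases hb1 : Nat.blt j D.n1 with _ | _ <;>
      rcases hb2 : Nat.blt j D.n2 with _ | _ <;> rcases hb4 : Nat.blt j D.n4 with _ | _ <;>
      rcases hb5 : Nat.blt j D.n5 with _ | _ <;>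
      simp only [bt', bt''] at hb1 hb2 hb3 hb4 hb5 <;> dsimp only <;>
      refine ⟨?_, ?_, ?_, ?_, ?_, ?_⟩ <;> intros <;> first | rfl | omega
  rcases hz' with rfl | rfl | rfl | rfl | rfl | rfl
  · rw [b0, b1]; omega
  · rw [b1', b2]; omega
  · rw [b2', b3]; omega
  · rw [b3', b4]; omega
  · rw [b4', b5]; omega
  · rw [b5', b6]; omega

theorem fld_zm (h : Num D) (j zo : ℕ) (hz : zo < 6) :
    fld D.W (D.zm zo) j = if j < D.L ∧ D.zn j = zo then 2 ^ D.W - 1 else 0 := by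
  unfold zm
  rw [fld_ZM]
  by_cases hc : j < D.L ∧ D.zn j = zo
  · rw [if_pos hc, if_pos ((zn_iff h j zo hz).2 hc)]
  · rw [if_neg hc, if_neg (fun h' => hc ((zn_iff h j zo hz).1 h'))]

theorem land_zm (h : Num D) (j zo x : ℕ) (hz : zo < 6) (hx : x < 2 ^ D.W) :
    x &&& fld D.W (D.zm zo) j = if j < D.L ∧ D.zn j = zo then x else 0 := by
  rw [fld_zm h j zo hz]
  split_ifs
  · exact land_full _ _ hx
  · simp

/-- combination of zones -/
theorem comb6 (h : Num D) (j : ℕ) (f : ℕ → ℕ) (hf : ∀ zo < 6, f zo < 2 ^ D.W) :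
    (f 0 &&& fld D.W (D.zm 0) j) ||| ((f 1 &&& fld D.W (D.zm 1) j) |||
      ((f 2 &&& fld D.W (D.zm 2) j) ||| ((f 3 &&& fld D.W (D.zm 3) j) |||
      ((f 4 &&& fld D.W (D.zm 4) j) ||| (f 5 &&& fld D.W (D.zm 5) j))))) =
      if j < D.L then f (D.zn j) else 0 := by
  rw [land_zm h j 0 _ (by norm_num) (hf 0 (by norm_num)),
    land_zm h j 1 _ (by norm_num) (hf 1 (by norm_num)),
    land_zm h j 2 _ (by norm_num) (hf 2 (by norm_num)),
    land_zm h j 3 _ (by norm_num) (hf 3 (by norm_num)),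
    land_zm h j 4 _ (by norm_num) (hf 4 (by norm_num)),
    land_zm h j 5 _ (by norm_num) (hf 5 (by norm_num))]
  have h6 : D.zn j < 6 := zn_lt j
  by_cases hj : j < D.L
  · have : D.zn j = 0 ∨ D.zn j = 1 ∨ D.zn j = 2 ∨ D.zn j = 3 ∨ D.zn j = 4 ∨ D.zn j = 5 := by
      omega
    rcases this with e | e | e | e | e | e <;> simp [hj, e]
  · simp [hj]

theorem fld_comb (h : Num D) (C : ℕ → ℕ) (a j : ℕ) :
    fld D.W (D.comb C a) j = if j < D.L then fld D.W (C (tr a (D.zn j))) j else 0 := by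
  have h1 := comb6 h j (fun zo => fld D.W (C (tr a zo)) j) (fun zo _ => fld_lt _ _ _)
  unfold comb
  simp only [show ∀ x y, Nat.lor x y = x ||| y from fun _ _ => rfl,
    show ∀ x y, Nat.land x y = x &&& y from fun _ _ => rfl]
  rw [fld_lor, fld_lor, fld_lor, fld_lor, fld_lor, fld_land, fld_land, fld_land, fld_land,
    fld_land, fld_land]
  exact h1

theorem fld_combC (h : Num D) (C : ℕ → ℕ) (hC : ∀ zo < 6, C zo < 2 ^ D.W) (j : ℕ) :
    fld D.W (D.combC C) j = if j < D.L then C (D.zn j) else 0 := by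
  by_cases hj : j < D.L
  · have h1 := comb6 h j C hC
    unfold combC
    simp only [show ∀ x y, Nat.lor x y = x ||| y from fun _ _ => rfl,
      show ∀ x y, Nat.land x y = x &&& y from fun _ _ => rfl,
      show ∀ x y, Nat.mul x y = x * y from fun _ _ => rfl]
    rw [fld_lor, fld_lor, fld_lor, fld_lor, fld_lor, fld_land, fld_land, fld_land, fld_land,
      fld_land, fld_land, h.fcones _ _ (hC 0 (by norm_num)), h.fcones _ _ (hC 1 (by norm_num)),
      h.fcones _ _ (hC 2 (by norm_num)), h.fcones _ _ (hC 3 (by norm_num)),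
      h.fcones _ _ (hC 4 (by norm_num)), h.fcones _ _ (hC 5 (by norm_num)), if_pos hj, if_pos hj,
      if_pos hj, if_pos hj, if_pos hj, if_pos hj]
    exact h1
  · unfold combC
    simp only [show ∀ x y, Nat.lor x y = x ||| y from fun _ _ => rfl,
      show ∀ x y, Nat.land x y = x &&& y from fun _ _ => rfl,
      show ∀ x y, Nat.mul x y = x * y from fun _ _ => rfl]
    rw [fld_lor, fld_lor, fld_lor, fld_lor, fld_lor, fld_land, fld_land, fld_land, fld_land,
      fld_land, fld_land, h.fcones _ _ (hC 0 (by norm_num)), h.fcones _ _ (hC 1 (by norm_num)),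
      h.fcones _ _ (hC 2 (by norm_num)), h.fcones _ _ (hC 3 (by norm_num)),
      h.fcones _ _ (hC 4 (by norm_num)), h.fcones _ _ (hC 5 (by norm_num)), if_neg hj, if_neg hj,
      if_neg hj, if_neg hj, if_neg hj, if_neg hj]
    simp [hj]

theorem fld_val (h : Num D) (c j : ℕ) (hj : j < D.L) (hc : c < nT (D.zn j)) :
    fld D.W (D.val c) j = 2 ^ D.W - 1 := by
  have hb : ∀ (b : Bool) (zo : ℕ), fld D.W (Nat.mul (cond b 1 0) (D.zm zo)) j =
      (cond b (2 ^ D.W - 1) 0) &&& fld D.W (D.zm zo) j := by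
    intro b zo
    cases b
    · simp [fld_zero]
    · rw [show Nat.mul (cond true 1 0) (D.zm zo) = 1 * D.zm zo from rfl, Nat.one_mul,
        Nat.and_comm]
      exact (land_full _ _ (fld_lt _ _ _)).symm
  have hp : 2 ^ D.W - 1 < 2 ^ D.W := by
    have : 0 < 2 ^ D.W := by positivity
    omega
  have h1 := comb6 h j (fun zo => cond (Nat.blt c (nT zo)) (2 ^ D.W - 1) 0) (fun zo _ => by
    cases Nat.blt c (nT zo)
    · exact Nat.pos_of_ne_zero (by positivity)
    · exact hp)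
  unfold val
  simp only [show ∀ x y, Nat.lor x y = x ||| y from fun _ _ => rfl]
  rw [fld_lor, fld_lor, fld_lor, fld_lor, fld_lor, hb, hb, hb, hb, hb, hb]
  refine h1.trans ?_
  rw [if_pos hj, (bt' _ _).mpr hc]
  rfl

end Dat

end Pool.Agent.H188.Ab
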