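import Mathlib
import Pool.Agent.H188.Ab.Sound

set_option autoImplicit false

/-!
Soundness of the checker, values at the nodes.
-/

namespace Pool.Agent.H188.Ab

open Finset Pool.Agent.H549R3.Chk Pool.Agent.H549R3.M2.Fam

theorem tr_lt (a zo : ℕ) (ha : a < 8) : tr a zo < nT zo := by
  rcases zo with _ | _ | _ | _ | _ | zo
  · exact Nat.one_pos
  · change a / 4 < 2; omega
  · change a / 2 < 4; omega
  · change a / 2 % 2 < 2; omega
  · change a % 4 < 4; omega
  · change a % 2 < 2; omega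

theorem nT_le (zo : ℕ) : nT zo ≤ 4 := by
  rcases zo with _ | _ | _ | _ | _ | zo
  · change 1 ≤ 4; omega
  · change 2 ≤ 4; omega
  · change 4 ≤ 4; omega
  · change 2 ≤ 4; omega
  · change 4 ≤ 4; omega
  · change 2 ≤ 4; omega

theorem tr4 (a zo : ℕ) (ha : a < 8) : tr a zo < 4 := lt_of_lt_of_le (tr_lt a zo ha) (nT_le zo)

theorem land_bit (a b : ℕ) (ha : a ≤ 1) (hb : b ≤ 1) : a &&& b = a * b := by
  have ha' : a = 0 ∨ a = 1 := by omega
  have hb' : b = 0 ∨ b = 1 := by omega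
  rcases ha' with rfl | rfl <;> rcases hb' with rfl | rfl <;> rfl

theorem fld_z (W A : ℕ) : fld W A 0 = A % 2 ^ W := by
  unfold fld
  rw [Nat.mul_zero, Nat.shiftRight_zero]

theorem fld_sh1 (W A j : ℕ) : fld W (A >>> W) j = fld W A (j + 1) := by
  have h := fld_shr W A 1 j
  rwa [Nat.mul_one] at h

theorem land_low (k x : ℕ) : x &&& (2 ^ k - 1) = x % 2 ^ k := Nat.and_two_pow_sub_one_eq_mod x k

namespace Dat

variable {D : Dat}

theorem Ok.n (h : Ok D) : Num D := num h.h0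

theorem Num.L2 (h : Num D) : 2 < D.L := by
  have := h.KL
  have := h.K
  omega

/-- facts on a track -/
structure Trk (D : Dat) (c : ℕ) : Prop where
  LA : ∀ j, fld D.W (D.LA c) j ≤ 1 ∧ (D.L ≤ j → fld D.W (D.LA c) j = 0)
  LB : ∀ j, fld D.W (D.LB c) j ≤ 1 ∧ (D.L ≤ j → fld D.W (D.LB c) j = 0)
  EP : ∀ j, fld D.W (D.EP c) j < 2 ^ D.kp ∧ (D.L ≤ j → fld D.W (D.EP c) j = 0)
  SS : ∀ j, fld D.W (D.SS c) j < 2 ^ D.kp ∧ (D.L ≤ j → fld D.W (D.SS c) j = 0)
  EE : ∀ j, fld D.W (D.EE c) j < 2 ^ D.kp ∧ (D.L ≤ j → fld D.W (D.EE c) j = 0)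
  MM : ∀ j, fld D.W (D.MM c) j < 2 ^ D.kp ∧ (D.L ≤ j → fld D.W (D.MM c) j = 0)
  XC : ∀ j, fld D.W (D.XC c) j < 2 ^ D.kp ∧ (D.L ≤ j → fld D.W (D.XC c) j = 0)
  YC : ∀ j, fld D.W (D.YC c) j < 2 ^ D.kp ∧ (D.L ≤ j → fld D.W (D.YC c) j = 0)

theorem Ok.trk (h : Ok D) (c : ℕ) (hc : c < 4) : Trk D c := by
  have hb := h.hB c hc
  have hn := h.n
  simp only [ckB, Bool.and_eq_true] at hb
  obtain ⟨h1, h2, h3, h4, h5, h6, h7, h8⟩ := hb
  have p0 : 0 < 2 ^ D.kp := by positivity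
  have p1 := hn.pW
  have c1 : 1 < 2 ^ D.W := by omega
  have c2 : 2 ^ D.kp - 1 < 2 ^ D.W := by omega
  have k : ∀ A, D.bb (Nat.sub (Nat.pow 2 D.kp) 1) A = true → ∀ j, fld D.W A j < 2 ^ D.kp ∧
      (D.L ≤ j → fld D.W A j = 0) := by
    intro A hA j
    obtain ⟨q1, q2⟩ := bb_spec hn (2 ^ D.kp - 1) A c2 hA j
    exact ⟨by omega, q2⟩
  exact ⟨fun j => bb_spec hn 1 _ c1 h1 j, fun j => bb_spec hn 1 _ c1 h2 j, k _ h3, k _ h4, k _ h5,
    k _ h6, k _ h7, k _ h8⟩

theorem w_eq (h : Num D) (a j : ℕ) (hj : j < D.L) :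
    D.w a j = fld D.W (D.LB (tr a (D.zn j))) j := by
  unfold w
  rw [fld_comb h, if_pos hj]

theorem w_le (h : Ok D) (a j : ℕ) (ha : a < 8) : D.w a j ≤ 1 := by
  unfold w
  rw [fld_comb h.n]
  split_ifs
  · exact ((h.trk _ (tr4 a _ ha)).LB j).1
  · omega

theorem ckL_spec (h : Ok D) (a : ℕ) (ha : a < 8) :
    D.w a 0 = 0 ∧ ∀ j, la D.L D.w a j = fld D.W (D.comb D.LA a) j := by
  have hA := h.hA a ha
  unfold ckA ckL at hA
  rw [Bool.and_eq_true, Bool.and_eq_true, bq', bq'] at hA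
  obtain ⟨⟨h1, h2⟩, -⟩ := hA
  have h1' : D.comb D.LB a >>> D.W = D.comb D.LA a := h1
  have h2' : D.comb D.LB a % 2 ^ D.W = 0 := h2
  constructor
  · unfold w
    rw [fld_z, h2']
  · intro j
    unfold la
    rw [← h1', fld_sh1]
    split_ifs with hj
    · rfl
    · rw [fld_comb h.n, if_neg hj]

theorem la_eq (h : Ok D) (a j : ℕ) (ha : a < 8) (hj : j < D.L) :
    la D.L D.w a j = fld D.W (D.LA (tr a (D.zn j))) j := by
  rw [(ckL_spec h a ha).2 j, fld_comb h.n, if_pos hj]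

theorem lb_eq (h : Num D) (a j : ℕ) (hj : j < D.L) :
    lb D.w a j = fld D.W (D.LB (tr a (D.zn j))) j := w_eq h a j hj

/-- recursion of a coordinate -/
theorem ckX_spec (h : Num D) (XL IN : ℕ) (e : ℤ) (hc : D.ckX XL IN e = true)
    (hX : ∀ j, fld D.W XL j < 2 * 2 ^ D.kp) (hI : ∀ j, fld D.W IN j ≤ 1) :
    fld D.W XL 0 = D.OFF ∧ (∀ j, j + 1 < D.L → fld D.W XL (j + 1) = fld D.W XL j + fld D.W IN j) ∧
    (fld D.W XL (D.L - 1) : ℤ) = D.OFF + e := by
  unfold ckX at hc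
  rw [Bool.and_eq_true, Bool.and_eq_true, bq', bq', decide_eq_true_eq] at hc
  obtain ⟨h1, h2, h3⟩ := hc
  have h1' : XL >>> D.W = (XL + IN) % 2 ^ (D.W * (D.L - 1)) := h1
  have h2' : XL % 2 ^ D.W = D.OFF := h2
  refine ⟨by rw [fld_z, h2'], ?_, h3⟩
  intro j hj
  have p0 : 0 < 2 ^ D.kp := by positivity
  have p1 := h.pW
  rw [← fld_sh1, h1', fld_mod, if_pos (by omega), fld_add]
  intro j
  have := hX j
  have := hI j
  have : 1 < 2 ^ D.kp := Nat.one_lt_two_pow (by have := h.kp; omega)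
  omega

theorem OX_lt (h : Ok D) (a zo : ℕ) (ha : a < 8) (hz : zo < 6) :
    D.OX a zo < 2 ^ D.kp ∧ D.OY a zo < 2 ^ D.kp ∧
    (D.OX a zo : ℤ) = D.OFF + sX a zo * D.s.eCx + sY a zo * D.s.eAx ∧
    (D.OY a zo : ℤ) = D.OFF + sX a zo * D.s.eCy + sY a zo * D.s.eAy := by
  have hA := h.hA a ha
  unfold ckA at hA
  simp only [Bool.and_eq_true] at hA
  have h1 := allB_spec _ _ hA.2.2.2.2 zo hz
  rw [Bool.and_eq_true, Bool.and_eq_true, Bool.and_eq_true, bt', bt', decide_eq_true_eq,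
    decide_eq_true_eq] at h1
  obtain ⟨h1, h2, h3, h4⟩ := h1
  refine ⟨h1, h2, ?_, ?_⟩
  · unfold OX
    exact Int.toNat_of_nonneg h3
  · unfold OY
    exact Int.toNat_of_nonneg h4

theorem fld_XL (h : Ok D) (C : ℕ → ℕ) (O : ℕ → ℕ) (a j : ℕ)
    (hC : ∀ c < 4, ∀ j, fld D.W (C c) j < 2 ^ D.kp) (ha : a < 8) (hO : ∀ zo < 6, O zo < 2 ^ D.kp) :
    fld D.W (D.comb C a + D.combC O) j =
      (if j < D.L then fld D.W (C (tr a (D.zn j))) j + O (D.zn j) else 0) := by
  have p0 : 0 < 2 ^ D.kp := by positivity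
  have p1 := h.n.pW
  have hO' : ∀ zo < 6, O zo < 2 ^ D.W := fun zo hz => by have := hO zo hz; omega
  rw [fld_add]
  · rw [fld_comb h.n, fld_combC h.n _ hO']
    split_ifs <;> rfl
  · intro j
    rw [fld_comb h.n, fld_combC h.n _ hO']
    split_ifs
    · have := hC _ (tr4 a (D.zn j) ha) j
      have := hO _ (zn_lt (D := D) j)
      omega
    · omega

theorem fld_XL_lt (h : Ok D) (C : ℕ → ℕ) (O : ℕ → ℕ) (a j : ℕ)
    (hC : ∀ c < 4, ∀ j, fld D.W (C c) j < 2 ^ D.kp) (ha : a < 8) (hO : ∀ zo < 6, O zo < 2 ^ D.kp) :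
    fld D.W (D.comb C a + D.combC O) j < 2 * 2 ^ D.kp := by
  have p0 : 0 < 2 ^ D.kp := by positivity
  rw [fld_XL h C O a j hC ha hO]
  split_ifs
  · have := hC _ (tr4 a (D.zn j) ha) j
    have := hO _ (zn_lt (D := D) j)
    omega
  · omega

theorem comb_bit (h : Ok D) (a j : ℕ) (ha : a < 8) :
    fld D.W (D.comb D.LA a) j ≤ 1 ∧ fld D.W (D.comb D.LB a) j ≤ 1 := by
  rw [fld_comb h.n, fld_comb h.n]
  split_ifs
  · exact ⟨((h.trk _ (tr4 a _ ha)).LA j).1, ((h.trk _ (tr4 a _ ha)).LB j).1⟩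
  · omega

theorem Xl_eq (h : Ok D) (a : ℕ) (ha : a < 8) :
    (∀ j, j < D.L → fld D.W (D.XC (tr a (D.zn j))) j + D.OX a (D.zn j) =
      D.OFF + Xl D.w a (j + 1)) ∧
    (Xl D.w a D.L : ℤ) = D.s.bx + D.s.eCx * vX a + D.s.eAx * vY a := by
  have hA := h.hA a ha
  unfold ckA at hA
  simp only [Bool.and_eq_true] at hA
  have hc := hA.2.1
  have hO : ∀ zo < 6, D.OX a zo < 2 ^ D.kp := fun zo hz => (OX_lt h a zo ha hz).1
  have hC : ∀ c < 4, ∀ j, fld D.W (D.XC c) j < 2 ^ D.kp := fun c hc j => ((h.trk c hc).XC j).1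
  obtain ⟨h1, h2, h3⟩ := ckX_spec h.n _ _ _ hc (fun j => fld_XL_lt h D.XC (D.OX a) a j hC ha hO)
    (fun j => (comb_bit h a j ha).1)
  have key : ∀ j, j < D.L → fld D.W (D.comb D.XC a + D.combC (D.OX a)) j =
      D.OFF + Xl D.w a (j + 1) := by
    intro j
    induction j with
    | zero =>
      intro _
      rw [show D.comb D.XC a + D.combC (D.OX a) = Nat.add (D.comb D.XC a) (D.combC (D.OX a)) from rfl,
        h1]
      unfold Xl
      rw [Finset.sum_range_one, (ckL_spec h a ha).1, Nat.add_zero]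
    | succ j ih =>
      intro hj
      have i1 := ih (by omega)
      have i2 := h2 j hj
      rw [show D.comb D.XC a + D.combC (D.OX a) = Nat.add (D.comb D.XC a) (D.combC (D.OX a)) from rfl]
        at i1 ⊢
      rw [i2, i1, ← (ckL_spec h a ha).2 j]
      unfold la
      rw [if_pos hj]
      unfold Xl
      rw [Finset.sum_range_succ _ (j + 1), Nat.add_assoc]
  constructor
  · intro j hj
    rw [← key j hj, fld_XL h D.XC (D.OX a) a j hC ha hO, if_pos hj]
  · have hL := h.n.L2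
    have i1 := key (D.L - 1) (by omega)
    rw [show D.comb D.XC a + D.combC (D.OX a) = Nat.add (D.comb D.XC a) (D.combC (D.OX a)) from rfl]
        at i1
    rw [i1, show D.L - 1 + 1 = D.L by omega] at h3
    push_cast at h3
    linarith

theorem Yl_eq (h : Ok D) (a : ℕ) (ha : a < 8) :
    (∀ j, j < D.L → fld D.W (D.YC (tr a (D.zn j))) j + D.OY a (D.zn j) =
      D.OFF + Yl D.w a (j + 1)) ∧
    (Yl D.w a D.L : ℤ) = D.s.by' + D.s.eCy * vX a + D.s.eAy * vY a := by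
  have hA := h.hA a ha
  unfold ckA at hA
  simp only [Bool.and_eq_true] at hA
  have hc := hA.2.2.1
  have hO : ∀ zo < 6, D.OY a zo < 2 ^ D.kp := fun zo hz => (OX_lt h a zo ha hz).2.1
  have hC : ∀ c < 4, ∀ j, fld D.W (D.YC c) j < 2 ^ D.kp := fun c hc j => ((h.trk c hc).YC j).1
  have hab : ∀ j, fld D.W (Nat.land (D.comb D.LB a) (D.comb D.LA a)) j =
      fld D.W (D.comb D.LB a) j * fld D.W (D.comb D.LA a) j := by
    intro j
    rw [show Nat.land (D.comb D.LB a) (D.comb D.LA a) = D.comb D.LB a &&& D.comb D.LA a from rfl,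
      fld_land, land_bit _ _ (comb_bit h a j ha).2 (comb_bit h a j ha).1]
  obtain ⟨h1, h2, h3⟩ := ckX_spec h.n _ _ _ hc (fun j => fld_XL_lt h D.YC (D.OY a) a j hC ha hO)
    (fun j => by
      rw [hab]
      calc _ ≤ 1 * 1 := Nat.mul_le_mul (comb_bit h a j ha).2 (comb_bit h a j ha).1
        _ = 1 := rfl)
  have key : ∀ j, j < D.L → fld D.W (D.comb D.YC a + D.combC (D.OY a)) j =
      D.OFF + Yl D.w a (j + 1) := by
    intro j
    induction j with
    | zero =>
      intro _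
      rw [show D.comb D.YC a + D.combC (D.OY a) = Nat.add (D.comb D.YC a) (D.combC (D.OY a)) from rfl,
        h1]
      unfold Yl
      rw [Finset.sum_range_one, (ckL_spec h a ha).1, Nat.mul_zero, Nat.add_zero]
    | succ j ih =>
      intro hj
      have i1 := ih (by omega)
      have i2 := h2 j hj
      rw [show D.comb D.YC a + D.combC (D.OY a) = Nat.add (D.comb D.YC a) (D.combC (D.OY a)) from rfl]
        at i1 ⊢
      rw [i2, i1, hab, ← (ckL_spec h a ha).2 j]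
      unfold la
      rw [if_pos hj]
      unfold Yl
      rw [Finset.sum_range_succ _ (j + 1), Nat.add_assoc]
      rfl
  constructor
  · intro j hj
    rw [← key j hj, fld_XL h D.YC (D.OY a) a j hC ha hO, if_pos hj]
  · have hL := h.n.L2
    have i1 := key (D.L - 1) (by omega)
    rw [show D.comb D.YC a + D.combC (D.OY a) = Nat.add (D.comb D.YC a) (D.combC (D.OY a)) from rfl]
        at i1
    rw [i1, show D.L - 1 + 1 = D.L by omega] at h3
    push_cast at h3
    linarith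

/-- the end values -/
theorem Ok.endOk (h : Ok D) : EndOk D.L D.w D.s :=
  ⟨by have := h.n.L2; omega, fun a ha => (ckL_spec h a ha).1, fun a ha => (Xl_eq h a ha).2,
    fun a ha => (Yl_eq h a ha).2⟩

/-- residues of the nodes -/
theorem EP_eq (h : Ok D) (a : ℕ) (ha : a < 8) (j : ℕ) (hj : j < D.L) :
    (fld D.W (D.EP (tr a (D.zn j))) j : ℤ) ≡
      D.A1 * Xl D.w a (j + 1) + D.A2 * Yl D.w a (j + 1) + D.A3 * j [ZMOD 2 ^ D.kp] := by
  have hA := h.hA a ha
  unfold ckA at hA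
  simp only [Bool.and_eq_true] at hA
  have hc := hA.2.2.2.1
  unfold ckE at hc
  rw [Bool.and_eq_true, bq', bq'] at hc
  obtain ⟨h1, h2⟩ := hc
  have h1' : D.comb D.EP a >>> D.W = ((D.comb D.EP a + (D.A1 * D.comb D.LA a +
    (D.A2 * (D.comb D.LB a &&& D.comb D.LA a) + D.A3 * D.ONES))) &&& D.LOW) %
      2 ^ (D.W * (D.L - 1)) := h1
  have h2' : D.comb D.EP a % 2 ^ D.W = 0 := h2
  have p0 : 0 < 2 ^ D.kp := by positivity
  have p1 := h.n.pW
  have hab : ∀ j, fld D.W (D.comb D.LB a &&& D.comb D.LA a) j =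
      fld D.W (D.comb D.LB a) j * fld D.W (D.comb D.LA a) j := by
    intro j
    rw [fld_land, land_bit _ _ (comb_bit h a j ha).2 (comb_bit h a j ha).1]
  have hab1 : ∀ j, fld D.W (D.comb D.LB a &&& D.comb D.LA a) j ≤ 1 := fun j => by
      rw [hab]
      calc _ ≤ 1 * 1 := Nat.mul_le_mul (comb_bit h a j ha).2 (comb_bit h a j ha).1
        _ = 1 := rfl
  have e1 : ∀ j, fld D.W (D.A1 * D.comb D.LA a) j = D.A1 * fld D.W (D.comb D.LA a) j ∧
      D.A1 * fld D.W (D.comb D.LA a) j < 2 ^ D.kp := by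
    have : ∀ j, D.A1 * fld D.W (D.comb D.LA a) j < 2 ^ D.kp := by
      intro j
      calc _ ≤ D.A1 * 1 := Nat.mul_le_mul_left _ (comb_bit h a j ha).1
        _ < _ := by rw [Nat.mul_one]; exact h.n.A1
    exact fun j => ⟨fld_mul _ _ _ (fun j => by have := this j; omega) j, this j⟩
  have e2 : ∀ j, fld D.W (D.A2 * (D.comb D.LB a &&& D.comb D.LA a)) j =
      D.A2 * fld D.W (D.comb D.LB a &&& D.comb D.LA a) j ∧
      D.A2 * fld D.W (D.comb D.LB a &&& D.comb D.LA a) j < 2 ^ D.kp := by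
    have : ∀ j, D.A2 * fld D.W (D.comb D.LB a &&& D.comb D.LA a) j < 2 ^ D.kp := by
      intro j
      calc _ ≤ D.A2 * 1 := Nat.mul_le_mul_left _ (hab1 j)
        _ < _ := by rw [Nat.mul_one]; exact h.n.A2
    exact fun j => ⟨fld_mul _ _ _ (fun j => by have := this j; omega) j, this j⟩
  have hA3 := h.n.A3
  have e3 : ∀ j, fld D.W (D.A3 * D.ONES) j = if j < D.L then D.A3 else 0 :=
    fun j => h.n.fcones _ _ (by omega)
  have e3' : ∀ j, fld D.W (D.A3 * D.ONES) j < 2 ^ D.kp := by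
    intro j; rw [e3]; split_ifs <;> omega
  have e0 : ∀ j, fld D.W (D.comb D.EP a) j < 2 ^ D.kp := by
    intro j
    rw [fld_comb h.n]
    split_ifs
    · exact ((h.trk _ (tr4 a _ ha)).EP j).1
    · omega
  have e4 : ∀ j, fld D.W (D.A2 * (D.comb D.LB a &&& D.comb D.LA a) + D.A3 * D.ONES) j =
      fld D.W (D.A2 * (D.comb D.LB a &&& D.comb D.LA a)) j + fld D.W (D.A3 * D.ONES) j :=
    fld_add _ _ _ (fun j => by
      have a1 := (e2 j).1
      have a2 := (e2 j).2
      have a3 := e3' j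
      omega)
  have e5 : ∀ j, fld D.W (D.A1 * D.comb D.LA a +
      (D.A2 * (D.comb D.LB a &&& D.comb D.LA a) + D.A3 * D.ONES)) j =
      fld D.W (D.A1 * D.comb D.LA a) j +
      fld D.W (D.A2 * (D.comb D.LB a &&& D.comb D.LA a) + D.A3 * D.ONES) j :=
    fld_add _ _ _ (fun j => by
      have a1 := (e2 j).1
      have a2 := (e2 j).2
      have a3 := e3' j
      have a4 := e4 j
      have a5 := (e1 j).1
      have a6 := (e1 j).2
      omega)
  have e6 : ∀ j, fld D.W (D.comb D.EP a + (D.A1 * D.comb D.LA a +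
      (D.A2 * (D.comb D.LB a &&& D.comb D.LA a) + D.A3 * D.ONES))) j =
      fld D.W (D.comb D.EP a) j + fld D.W (D.A1 * D.comb D.LA a +
      (D.A2 * (D.comb D.LB a &&& D.comb D.LA a) + D.A3 * D.ONES)) j :=
    fld_add _ _ _ (fun j => by
      have a1 := (e2 j).1
      have a2 := (e2 j).2
      have a3 := e3' j
      have a4 := e4 j
      have a5 := (e1 j).1
      have a6 := (e1 j).2
      have a7 := e5 j
      have a8 := e0 j
      omega)
  have hrec : ∀ j, j + 1 < D.L → fld D.W (D.comb D.EP a) (j + 1) =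
      (fld D.W (D.comb D.EP a) j + (D.A1 * fld D.W (D.comb D.LA a) j +
        (D.A2 * (fld D.W (D.comb D.LB a) j * fld D.W (D.comb D.LA a) j) + D.A3))) %
        2 ^ D.kp := by
    intro j hj
    rw [← fld_sh1, h1', fld_mod, if_pos (by omega), fld_land, h.n.flow, if_pos (by omega),
      land_low, e6, e5, e4, (e1 j).1, (e2 j).1, e3, if_pos (by omega), hab]
  have key : ∀ j, j < D.L → (fld D.W (D.comb D.EP a) j : ℤ) ≡
      D.A1 * Xl D.w a (j + 1) + D.A2 * Yl D.w a (j + 1) + D.A3 * j [ZMOD 2 ^ D.kp] := by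
    intro j
    induction j with
    | zero =>
      intro _
      rw [fld_z, h2']
      unfold Xl Yl
      rw [Finset.sum_range_one, Finset.sum_range_one, (ckL_spec h a ha).1]
      simp
    | succ j ih =>
      intro hj
      have i1 := ih (by omega)
      rw [hrec j hj]
      have i2 : la D.L D.w a j = D.w a (j + 1) := by
        unfold la
        rw [if_pos hj]
      rw [← (ckL_spec h a ha).2 j, i2]
      have i3 : fld D.W (D.comb D.LB a) j = D.w a j := rfl
      rw [i3]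
      have i4 : (Xl D.w a (j + 1 + 1) : ℤ) = Xl D.w a (j + 1) + D.w a (j + 1) := by
        unfold Xl
        rw [Finset.sum_range_succ _ (j + 1)]
        push_cast
        ring
      have i5 : (Yl D.w a (j + 1 + 1) : ℤ) = Yl D.w a (j + 1) + D.w a j * D.w a (j + 1) := by
        unfold Yl
        rw [Finset.sum_range_succ _ (j + 1)]
        push_cast
        rfl
      rw [i4, i5]
      push_cast
      refine (Int.mod_modEq _ _).trans ?_
      have i6 := i1.add_right ((D.A1 : ℤ) * D.w a (j + 1) +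
        (D.A2 * (D.w a j * D.w a (j + 1)) + D.A3))
      refine i6.trans ?_
      exact congrArg (fun x : ℤ => x % (2 ^ D.kp : ℤ)) (by ring)
  have i0 := key j hj
  rw [fld_comb h.n, if_pos hj] at i0
  exact i0

end Dat

end Pool.Agent.H188.Ab
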