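import Mathlib
import Pool.Agent.H188.Ab.Node

set_option autoImplicit false

/-!
Soundness of the checker, residues.
-/

namespace Pool.Agent.H188.Ab

open Finset Pool.Agent.H549R3.Chk Pool.Agent.H549R3.M2.Fam

namespace Dat

variable {D : Dat}

theorem Num.k64 (h : Num D) : 64 ≤ 2 ^ D.kp := by
  have := h.kp
  calc 64 = 2 ^ 6 := by norm_num
    _ ≤ 2 ^ D.kp := Nat.pow_le_pow_right (by norm_num) (by omega)

theorem val_zero (h : Num D) (c j X : ℕ) (hc : c < nT (D.zn j)) (hj : j < D.L)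
    (hb : Nat.beq (Nat.land X (D.val c)) 0 = true) : fld D.W X j = 0 := by
  rw [bq'] at hb
  have h1 : fld D.W (X &&& D.val c) j = 0 := by
    rw [show X &&& D.val c = Nat.land X (D.val c) from rfl, hb, fld_zero]
  rwa [fld_land, fld_val h c j hj hc, land_full _ _ (fld_lt _ _ _)] at h1

/-- facts of the roles at a node -/
theorem roles (h : Ok D) (c j : ℕ) (hc : c < nT (D.zn j)) (hj : j < D.L) :
    fld D.W (D.SS c) j = (fld D.W (D.EP c) j + (D.A2 * (fld D.W (D.LA c) j * fld D.W (D.LB c) j) +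
      4 * fld D.W (D.LA c) j)) % 2 ^ D.kp ∧
    fld D.W (D.EE c) j = (fld D.W (D.EP c) j + 8 * fld D.W (D.LB c) j) % 2 ^ D.kp ∧
    (fld D.W (D.MM c) j + (2 * fld D.W (D.EP c) j +
      (D.A2 * (fld D.W (D.LA c) j * fld D.W (D.LB c) j) +
      (4 * fld D.W (D.LA c) j + 8 * fld D.W (D.LB c) j))) % 2 ^ D.kp) % 2 ^ D.kp = 0 := by
  have hc4 : c < 4 := lt_of_lt_of_le hc (nT_le _)
  have hk := h.hC c hc4
  have ht := h.trk c hc4
  have hn := h.n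
  unfold ckC at hk
  simp only [Bool.and_eq_true] at hk
  obtain ⟨k1, k2, k3⟩ := hk
  have p0 := hn.k64
  have p1 := hn.pW
  have pA := hn.A2
  have ab : ∀ j, fld D.W (D.LA c &&& D.LB c) j = fld D.W (D.LA c) j * fld D.W (D.LB c) j := by
    intro j
    rw [fld_land, land_bit _ _ (ht.LA j).1 (ht.LB j).1]
  have ab1 : ∀ j, fld D.W (D.LA c) j * fld D.W (D.LB c) j ≤ 1 := fun j =>
    calc _ ≤ 1 * 1 := Nat.mul_le_mul (ht.LA j).1 (ht.LB j).1
      _ = 1 := rfl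
  have a2' : ∀ j, D.A2 * fld D.W (D.LA c &&& D.LB c) j < 2 ^ D.kp := by
    intro j
    rw [ab]
    calc _ ≤ D.A2 * 1 := Nat.mul_le_mul_left _ (ab1 j)
      _ < _ := by rw [Nat.mul_one]; exact pA
  have a2 : ∀ j, fld D.W (D.A2 * (D.LA c &&& D.LB c)) j =
      D.A2 * (fld D.W (D.LA c) j * fld D.W (D.LB c) j) := by
    intro j
    rw [fld_mul _ _ _ (fun j => by have := a2' j; omega), ab]
  have a2l : ∀ j, fld D.W (D.A2 * (D.LA c &&& D.LB c)) j < 2 ^ D.kp := by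
    intro j
    have := a2' j
    rw [ab] at this
    rw [a2]
    exact this
  have a4 : ∀ j, fld D.W (4 * D.LA c) j = 4 * fld D.W (D.LA c) j :=
    fld_mul _ _ _ (fun j => by have := (ht.LA j).1; omega)
  have a8 : ∀ j, fld D.W (8 * D.LB c) j = 8 * fld D.W (D.LB c) j :=
    fld_mul _ _ _ (fun j => by have := (ht.LB j).1; omega)
  have a22 : ∀ j, fld D.W (2 * D.EP c) j = 2 * fld D.W (D.EP c) j :=
    fld_mul _ _ _ (fun j => by have := (ht.EP j).1; omega)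
  refine ⟨?_, ?_, ?_⟩
  · have z := val_zero hn c j _ hc hj k1
    change fld D.W (((D.EP c + (D.A2 * (D.LA c &&& D.LB c) + 4 * D.LA c)) &&& D.LOW) ^^^ D.SS c) j
      = 0 at z
    rw [fld_xor, Nat.xor_eq_zero_iff, fld_land, hn.flow, if_pos hj, land_low] at z
    have s1 : ∀ j, fld D.W (D.A2 * (D.LA c &&& D.LB c) + 4 * D.LA c) j =
        fld D.W (D.A2 * (D.LA c &&& D.LB c)) j + fld D.W (4 * D.LA c) j :=
      fld_add _ _ _ (fun j => by
        have := a2l j; have := a4 j; have := (ht.LA j).1; omega)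
    have s2 : ∀ j, fld D.W (D.EP c + (D.A2 * (D.LA c &&& D.LB c) + 4 * D.LA c)) j =
        fld D.W (D.EP c) j + fld D.W (D.A2 * (D.LA c &&& D.LB c) + 4 * D.LA c) j :=
      fld_add _ _ _ (fun j => by
        have := a2l j; have := a4 j; have := (ht.LA j).1; have := s1 j; have := (ht.EP j).1; omega)
    rw [s2, s1, a2, a4] at z
    exact z.symm
  · have z := val_zero hn c j _ hc hj k2
    change fld D.W (((D.EP c + 8 * D.LB c) &&& D.LOW) ^^^ D.EE c) j = 0 at z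
    rw [fld_xor, Nat.xor_eq_zero_iff, fld_land, hn.flow, if_pos hj, land_low] at z
    have s2 : ∀ j, fld D.W (D.EP c + 8 * D.LB c) j =
        fld D.W (D.EP c) j + fld D.W (8 * D.LB c) j :=
      fld_add _ _ _ (fun j => by
        have := a8 j; have := (ht.LB j).1; have := (ht.EP j).1; omega)
    rw [s2, a8] at z
    exact z.symm
  · have z := val_zero hn c j _ hc hj k3
    change fld D.W ((D.MM c + ((2 * D.EP c + (D.A2 * (D.LA c &&& D.LB c) + (4 * D.LA c +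
      8 * D.LB c))) &&& D.LOW)) &&& D.LOW) j = 0 at z
    rw [fld_land, hn.flow, if_pos hj, land_low] at z
    have s0 : ∀ j, fld D.W (4 * D.LA c + 8 * D.LB c) j =
        fld D.W (4 * D.LA c) j + fld D.W (8 * D.LB c) j :=
      fld_add _ _ _ (fun j => by
        have := a4 j; have := (ht.LA j).1; have := a8 j; have := (ht.LB j).1; omega)
    have s1 : ∀ j, fld D.W (D.A2 * (D.LA c &&& D.LB c) + (4 * D.LA c + 8 * D.LB c)) j =
        fld D.W (D.A2 * (D.LA c &&& D.LB c)) j + fld D.W (4 * D.LA c + 8 * D.LB c) j :=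
      fld_add _ _ _ (fun j => by
        have := a2l j; have := a4 j; have := (ht.LA j).1; have := a8 j; have := (ht.LB j).1
        have := s0 j; omega)
    have s2 : ∀ j, fld D.W (2 * D.EP c + (D.A2 * (D.LA c &&& D.LB c) + (4 * D.LA c +
        8 * D.LB c))) j =
        fld D.W (2 * D.EP c) j +
          fld D.W (D.A2 * (D.LA c &&& D.LB c) + (4 * D.LA c + 8 * D.LB c)) j :=
      fld_add _ _ _ (fun j => by
        have := a2l j; have := a4 j; have := (ht.LA j).1; have := a8 j; have := (ht.LB j).1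
        have := s0 j; have := s1 j; have := a22 j; have := (ht.EP j).1; omega)
    have s3 : ∀ j, fld D.W (D.MM c + ((2 * D.EP c + (D.A2 * (D.LA c &&& D.LB c) + (4 * D.LA c +
        8 * D.LB c))) &&& D.LOW)) j = fld D.W (D.MM c) j +
          fld D.W ((2 * D.EP c + (D.A2 * (D.LA c &&& D.LB c) + (4 * D.LA c +
        8 * D.LB c))) &&& D.LOW) j := by
      apply fld_add
      intro j
      have := (ht.MM j).1
      rw [fld_land, hn.flow]
      split_ifs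
      · rw [land_low]
        have : fld D.W (2 * D.EP c + (D.A2 * (D.LA c &&& D.LB c) + (4 * D.LA c +
          8 * D.LB c))) j % 2 ^ D.kp < 2 ^ D.kp := Nat.mod_lt _ (by positivity)
        omega
      · rw [Nat.and_zero]
        omega
    rw [s3, fld_land, hn.flow, if_pos hj, land_low, s2, s1, s0, a2, a4, a8, a22] at z
    exact z

/-- The residues add up to zero. -/
theorem sum0 (h : Ok D) (a0 a1 a2 j0 j1 j2 : ℕ) (ep DX DY : ℤ) (h0 : a0 < 8) (h1 : a1 < 8)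
    (h2 : a2 < 8) (g0 : j0 < D.L) (g1 : j1 < D.L) (g2 : j2 < D.L)
    (he : (2 * j1 - j0 - j2 : ℤ) = ep * D.L)
    (hla : la D.L D.w a0 j0 = la D.L D.w a1 j1) (hlb : lb D.w a1 j1 = lb D.w a2 j2)
    (hX : D.s.bx * ep + D.s.eCx * DX + D.s.eAx * DY +
      ((Xl D.w a0 (j0 + 1) : ℤ) + Xl D.w a2 (j2 + 1) - 2 * Xl D.w a1 (j1 + 1)) = 0)
    (hY : D.s.by' * ep + D.s.eCy * DX + D.s.eAy * DY +
      ((Yl D.w a0 (j0 + 1) : ℤ) + lb D.w a0 j0 * la D.L D.w a0 j0 + Yl D.w a2 (j2 + 1) -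
        2 * Yl D.w a1 (j1 + 1) - lb D.w a1 j1 * la D.L D.w a1 j1) = 0) :
    (fld D.W (D.SS (tr a0 (D.zn j0))) j0 + fld D.W (D.MM (tr a1 (D.zn j1))) j1 +
      fld D.W (D.EE (tr a2 (D.zn j2))) j2) % 2 ^ D.kp = 0 := by
  have r0 := (roles h _ j0 (tr_lt a0 (D.zn j0) h0) g0).1
  have r1 := (roles h _ j1 (tr_lt a1 (D.zn j1) h1) g1).2.2
  have r2 := (roles h _ j2 (tr_lt a2 (D.zn j2) h2) g2).2.1
  have e0 := EP_eq h a0 h0 j0 g0
  have e1 := EP_eq h a1 h1 j1 g1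
  have e2 := EP_eq h a2 h2 j2 g2
  rw [← la_eq h a0 j0 h0 g0, ← lb_eq h.n a0 j0 g0] at r0
  rw [← la_eq h a1 j1 h1 g1, ← lb_eq h.n a1 j1 g1] at r1
  rw [← lb_eq h.n a2 j2 g2] at r2
  rw [hla] at r0
  rw [← hlb] at r2
  generalize hm0 : fld D.W (D.EP (tr a0 (D.zn j0))) j0 = m0 at *
  generalize hm1 : fld D.W (D.EP (tr a1 (D.zn j1))) j1 = m1 at *
  generalize hm2 : fld D.W (D.EP (tr a2 (D.zn j2))) j2 = m2 at *
  have hS := h.hS
  unfold ckS at hS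
  simp only [Bool.and_eq_true, decide_eq_true_eq] at hS
  obtain ⟨-, s1, s2, s3, -⟩ := hS
  have s1' : (2 : ℤ) ^ D.kp ∣ (D.A1 : ℤ) * D.s.eCx + D.A2 * D.s.eCy := Int.dvd_of_emod_eq_zero s1
  have s2' : (2 : ℤ) ^ D.kp ∣ (D.A1 : ℤ) * D.s.eAx + D.A2 * D.s.eAy := Int.dvd_of_emod_eq_zero s2
  have s3' : (2 : ℤ) ^ D.kp ∣ (D.A1 : ℤ) * D.s.bx + D.A2 * D.s.by' + D.A3 * D.L :=
    Int.dvd_of_emod_eq_zero s3
  -- integers
  have t0 : (2 : ℤ) ^ D.kp ∣ (m0 : ℤ) - (D.A1 * Xl D.w a0 (j0 + 1) + D.A2 * Yl D.w a0 (j0 + 1) +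
    D.A3 * j0) := e0.symm.dvd
  have t1 : (2 : ℤ) ^ D.kp ∣ (m1 : ℤ) - (D.A1 * Xl D.w a1 (j1 + 1) + D.A2 * Yl D.w a1 (j1 + 1) +
    D.A3 * j1) := e1.symm.dvd
  have t2 : (2 : ℤ) ^ D.kp ∣ (m2 : ℤ) - (D.A1 * Xl D.w a2 (j2 + 1) + D.A2 * Yl D.w a2 (j2 + 1) +
    D.A3 * j2) := e2.symm.dvd
  have u0 : (2 : ℤ) ^ D.kp ∣ (m0 : ℤ) + (D.A2 * (la D.L D.w a1 j1 * lb D.w a0 j0) +
      4 * la D.L D.w a1 j1) - fld D.W (D.SS (tr a0 (D.zn j0))) j0 := by
    rw [r0]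
    push_cast
    exact Int.dvd_self_sub_emod
  have u2 : (2 : ℤ) ^ D.kp ∣ (m2 : ℤ) + 8 * lb D.w a1 j1 -
      fld D.W (D.EE (tr a2 (D.zn j2))) j2 := by
    rw [r2]
    push_cast
    exact Int.dvd_self_sub_emod
  have u1 : (2 : ℤ) ^ D.kp ∣ (fld D.W (D.MM (tr a1 (D.zn j1))) j1 : ℤ) + (2 * m1 +
      (D.A2 * (la D.L D.w a1 j1 * lb D.w a1 j1) + (4 * la D.L D.w a1 j1 + 8 * lb D.w a1 j1))) := by
    have v1 : ((2 ^ D.kp : ℕ) : ℤ) ∣ ((fld D.W (D.MM (tr a1 (D.zn j1))) j1 + (2 * m1 +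
      (D.A2 * (la D.L D.w a1 j1 * lb D.w a1 j1) + (4 * la D.L D.w a1 j1 + 8 * lb D.w a1 j1))) : ℕ) :
        ℤ) := by
      rw [Int.natCast_dvd_natCast]
      rw [Nat.add_mod, Nat.mod_mod, ← Nat.add_mod] at r1
      exact Nat.dvd_of_mod_eq_zero r1
    push_cast at v1
    exact v1
  have hN : ((2 ^ D.kp : ℕ) : ℤ) ∣ ((fld D.W (D.SS (tr a0 (D.zn j0))) j0 +
      fld D.W (D.MM (tr a1 (D.zn j1))) j1 + fld D.W (D.EE (tr a2 (D.zn j2))) j2 : ℕ) : ℤ) := by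
    push_cast
    obtain ⟨x0, x0'⟩ := t0
    obtain ⟨x1, x1'⟩ := t1
    obtain ⟨x2, x2'⟩ := t2
    obtain ⟨y0, y0'⟩ := u0
    obtain ⟨y1, y1'⟩ := u1
    obtain ⟨y2, y2'⟩ := u2
    obtain ⟨z1, z1'⟩ := s1'
    obtain ⟨z2, z2'⟩ := s2'
    obtain ⟨z3, z3'⟩ := s3'
    rw [hla] at hY
    refine ⟨x0 + x2 - 2 * x1 - y0 - y2 + y1 - ep * z3 - DX * z1 - DY * z2, ?_⟩
    linear_combination x0' + x2' - 2 * x1' - y0' - y2' + y1' - ep * z3' - DX * z1' - DY * z2' +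
      (D.A1 : ℤ) * hX + (D.A2 : ℤ) * hY - (D.A3 : ℤ) * he
  rw [Int.natCast_dvd_natCast] at hN
  exact Nat.mod_eq_zero_of_dvd hN

end Dat

end Pool.Agent.H188.Ab
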