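import Mathlib
import Pool.Agent.H188.Ab.Role

set_option autoImplicit false

/-!
The main loop of the checker.
-/

namespace Pool.Agent.H188.Ab

open Finset Pool.Agent.H549R3.Chk Pool.Agent.H549R3.M2.Fam

/-- calls a test at all nonzero fields -/
def scan (W : ℕ) (ok : ℕ → Bool) (n : ℕ) : ℕ → ℕ → Bool :=
  Nat.rec (fun V b => or (Nat.beq V 0) (ok b))
    (fun n ih V b => match Nat.beq V 0 with
      | true => true
      | false => and (ih (Nat.mod V (Nat.pow 2 (Nat.mul W (Nat.pow 2 n)))) b)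
        (ih (Nat.shiftRight V (Nat.mul W (Nat.pow 2 n))) (Nat.add b (Nat.pow 2 n)))) n

theorem scan_spec (W : ℕ) (ok : ℕ → Bool) (n : ℕ) : ∀ V b, scan W ok n V b = true →
    ∀ j < 2 ^ n, fld W V j ≠ 0 → ok (b + j) = true := by
  induction n with
  | zero =>
    intro V b h j hj hf
    have hj0 : j = 0 := by simpa using hj
    subst hj0
    have h' : (Nat.beq V 0 || ok b) = true := h
    have hV : Nat.beq V 0 = false := by
      rcases hb : Nat.beq V 0 with _ | _
      · rfl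
      · rw [bq'] at hb
        subst hb
        exact absurd (fld_zero W 0) hf
    rw [hV, Bool.false_or] at h'
    exact h'
  | succ n ih =>
    intro V b h j hj hf
    have hV : Nat.beq V 0 = false := by
      rcases hb : Nat.beq V 0 with _ | _
      · rfl
      · rw [bq'] at hb
        subst hb
        exact absurd (fld_zero W j) hf
    have h' : (match Nat.beq V 0 with
      | true => true
      | false => and (scan W ok n (Nat.mod V (Nat.pow 2 (Nat.mul W (Nat.pow 2 n)))) b)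
        (scan W ok n (Nat.shiftRight V (Nat.mul W (Nat.pow 2 n))) (Nat.add b (Nat.pow 2 n)))) =
        true := h
    rw [hV] at h'
    simp only [Bool.and_eq_true] at h'
    obtain ⟨h1, h2⟩ := h'
    have hp : 2 ^ (n + 1) = 2 ^ n + 2 ^ n := by rw [Nat.pow_succ]; ring
    by_cases hj' : j < 2 ^ n
    · apply ih _ _ h1 j hj'
      have : fld W (V % 2 ^ (W * 2 ^ n)) j ≠ 0 := by
        rw [fld_mod, if_pos hj']
        exact hf
      exact this
    · have := ih _ _ h2 (j - 2 ^ n) (by omega) (by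
        have : fld W (V >>> (W * 2 ^ n)) (j - 2 ^ n) ≠ 0 := by
          rw [fld_shr, Nat.sub_add_cancel (by omega)]
          exact hf
        exact this)
      have e : Nat.add b (Nat.pow 2 n) + (j - 2 ^ n) = b + j := by
        have : Nat.add b (Nat.pow 2 n) = b + 2 ^ n := rfl
        omega
      rwa [e] at this

/-- membership in a list -/
def memL (l : List ℕ) (n : ℕ) : Bool := List.rec false (fun a _ ih => or (Nat.beq a n) ih) l

/-- a test on a list -/
def allL (l : List ℕ) (f : ℕ → Bool) : Bool := List.rec true (fun a _ ih => and (f a) ih) l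

theorem memL_spec (l : List ℕ) (n : ℕ) (h : memL l n = true) (f : ℕ → Bool)
    (hf : allL l f = true) : f n = true := by
  induction l with
  | nil => exact absurd (show false = true from h) (by decide)
  | cons a l ih =>
    have h' : (Nat.beq a n || memL l n) = true := h
    have hf' : (f a && allL l f) = true := hf
    rw [Bool.or_eq_true, bq'] at h'
    rw [Bool.and_eq_true] at hf'
    rcases h' with h' | h'
    · rw [← h']; exact hf'.1
    · exact ih h' hf'.2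

/-- code of a key -/
def enc (q0 q1 q2 : ℕ) (ep gx gy : ℤ) (lg : Bool) : ℕ :=
  Nat.add (Nat.mul (Nat.add (Nat.mul (Nat.add (Nat.mul (Nat.add (Nat.mul (Nat.add (Nat.mul
    (Nat.add (Nat.mul q0 24) q1) 24) q2) 4) (ep + 1).toNat) 64) (gx + 32).toNat) 64)
      (gy + 32).toNat) 2) (cond lg 1 0)

/-- decoding -/
def dl (n : ℕ) : Bool := Nat.beq (Nat.mod n 2) 1
/-- decoding -/
def dy (n : ℕ) : ℤ := (Nat.mod (Nat.div n 2) 64 : ℕ) - 32
/-- decoding -/
def dx (n : ℕ) : ℤ := (Nat.mod (Nat.div n 128) 64 : ℕ) - 32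
/-- decoding -/
def de (n : ℕ) : ℤ := (Nat.mod (Nat.div n 8192) 4 : ℕ) - 1
/-- decoding -/
def d2 (n : ℕ) : ℕ := Nat.mod (Nat.div n 32768) 24
/-- decoding -/
def d1 (n : ℕ) : ℕ := Nat.mod (Nat.div n 786432) 24
/-- decoding -/
def d0 (n : ℕ) : ℕ := Nat.div n 18874368

/-- check of a coded key -/
def okCode (n : ℕ) : Bool := okKey (d0 n) (d1 n) (d2 n) (de n) (dx n) (dy n) (dl n)

/-- a key in the list -/
def keyN (KL : List ℕ) (q0 q1 q2 : ℕ) (ep gx gy : ℤ) (lg : Bool) (n : ℕ) : Bool :=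
  and (memL KL n) (and (Nat.beq (d0 n) q0) (and (Nat.beq (d1 n) q1) (and (Nat.beq (d2 n) q2)
    (and (decide (de n = ep)) (and (decide (dx n = gx)) (and (decide (dy n = gy))
      (decide (dl n = lg))))))))

theorem keyN_spec (KL : List ℕ) (q0 q1 q2 : ℕ) (ep gx gy : ℤ) (lg : Bool) (n : ℕ)
    (hK : allL KL okCode = true) (h : keyN KL q0 q1 q2 ep gx gy lg n = true) :
    okKey q0 q1 q2 ep gx gy lg = true := by
  unfold keyN at h
  simp only [Bool.and_eq_true, bq', decide_eq_true_eq] at h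
  obtain ⟨h0, h1, h2, h3, h4, h5, h6, h7⟩ := h
  have := memL_spec KL n h0 okCode hK
  unfold okCode at this
  rw [h1, h2, h3, h4, h5, h6, h7] at this
  exact this

/-- check of the keys of close nodes -/
def ckQ : Bool := allB 6 fun z => allB 4 fun c => or (not (Nat.blt c (nT z)))
  (okKey (Nat.add (Nat.mul 4 z) c) (Nat.add (Nat.mul 4 z) c) (Nat.add (Nat.mul 4 z) c) 0 0 0 false)

namespace Dat

variable (D : Dat)

/-- close nodes of the same track -/
def quick (c0 c1 c2 j0 j1 j2 : ℕ) : Bool :=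
  and (Nat.beq c0 c1) (and (Nat.beq c1 c2) (and (Nat.blt j1 (Nat.add j0 D.K))
    (and (Nat.blt j0 (Nat.add j1 D.K)) (and (Nat.blt j2 (Nat.add j1 D.K))
    (and (Nat.blt j1 (Nat.add j2 D.K)) (and (Nat.beq (D.zn j0) (D.zn j1))
      (Nat.beq (D.zn j1) (D.zn j2))))))))

/-- lookup of the key -/
def slowD (KL : List ℕ) (q0 q1 q2 : ℕ) (ep gx gy : ℤ) (lg : Bool) : Bool :=
  keyN KL q0 q1 q2 ep gx gy lg (enc q0 q1 q2 ep gx gy lg)

/-- computation of the key -/
def slowE (KL : List ℕ) (q0 q1 q2 : ℕ) (ep x y : ℤ) (lg : Bool) : Bool :=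
  slowD KL q0 q1 q2 ep ((x * D.s.eAy - y * D.s.eAx) / D.det) ((y * D.s.eCx - x * D.s.eCy) / D.det)
    lg

/-- the general test of a hit -/
def slow (KL : List ℕ) (c0 c1 c2 j0 j1 j2 : ℕ) (ep : ℤ) : Bool :=
  D.slowE KL (Nat.add (Nat.mul 4 (D.zn j0)) c0) (Nat.add (Nat.mul 4 (D.zn j1)) c1)
    (Nat.add (Nat.mul 4 (D.zn j2)) c2) ep
    ((fld D.W (D.XC c0) j0 : ℤ) + fld D.W (D.XC c2) j2 - 2 * fld D.W (D.XC c1) j1 + ep * D.s.bx)
    ((fld D.W (D.YC c0) j0 : ℤ) + fld D.W (D.LB c0) j0 * fld D.W (D.LA c0) j0 +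
      fld D.W (D.YC c2) j2 - 2 * fld D.W (D.YC c1) j1 -
      fld D.W (D.LB c1) j1 * fld D.W (D.LA c1) j1 + ep * D.s.by')
    (or (and (decide (ep = -1)) (Nat.ble (Nat.add j1 D.K) j2))
      (and (decide (ep ≠ -1)) (Nat.ble (Nat.add j0 D.K) j1)))

/-- test of a hit -/
def hit2 (KL : List ℕ) (c0 c1 c2 j0 j1 j2 : ℕ) : Bool :=
  or (D.quick c0 c1 c2 j0 j1 j2)
    (D.slow KL c0 c1 c2 j0 j1 j2 ((2 * (j1 : ℤ) - j0 - j2) / D.L))

/-- test of a hit -/
def hit (KL : List ℕ) (d c0 c1 c2 j0 : ℕ) : Bool :=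
  D.hit2 KL c0 c1 c2 j0 (Nat.mod (Nat.add j0 d) D.L) (Nat.mod (Nat.add j0 (Nat.mul 2 d)) D.L)

/-- zero detection -/
def hm (T : ℕ) : ℕ := Nat.land (Nat.add (Nat.land T D.LOW) D.LOW) D.BIT

/-- test of a sum -/
def chk1 (ok : ℕ → Bool) (H : ℕ) : Bool :=
  match Nat.beq H D.BIT with
  | true => true
  | false => scan D.W ok D.dep (Nat.xor H D.BIT) 0

/-- the same node three times -/
def diag (d c0 c1 c2 : ℕ) : Bool := and (Nat.beq d 0) (and (Nat.beq c0 c1) (Nat.beq c1 c2))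

/-- the loop for one difference -/
def chkD (KL : List ℕ) (d : ℕ) : Bool :=
  allB 4 fun c1 => allB 4 fun c0 => allB 4 fun c2 => or (diag d c0 c1 c2)
    (D.chk1 (D.hit KL d c0 c1 c2) (D.hm (Nat.add (Nat.add (D.SS c0) (rot D.W D.L (D.MM c1) d))
      (rot D.W D.L (D.EE c2) (Nat.mod (Nat.mul 2 d) D.L)))))

variable {D}

theorem hm_fld (h : Num D) (T j : ℕ) (hj : j < D.L) (h0 : fld D.W T j % 2 ^ D.kp = 0) :
    fld D.W (D.hm T) j = 0 := by
  have p0 := h.k64
  have p1 := h.pW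
  change fld D.W (((T &&& D.LOW) + D.LOW) &&& D.BIT) j = 0
  have f1 : ∀ j, fld D.W (T &&& D.LOW) j = if j < D.L then fld D.W T j % 2 ^ D.kp else 0 := by
    intro j
    rw [fld_land, h.flow]
    split_ifs
    · rw [land_low]
    · simp
  have f2 : ∀ j, fld D.W ((T &&& D.LOW) + D.LOW) j =
      fld D.W (T &&& D.LOW) j + fld D.W D.LOW j := by
    apply fld_add
    intro j
    rw [f1, h.flow]
    have : fld D.W T j % 2 ^ D.kp < 2 ^ D.kp := Nat.mod_lt _ (by positivity)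
    split_ifs <;> omega
  rw [fld_land, f2, f1, h.flow, h.fbit, if_pos hj, if_pos hj, if_pos hj, h0, Nat.zero_add,
    Nat.and_comm]
  apply Nat.eq_of_testBit_eq
  intro i
  rw [Nat.testBit_and, Nat.testBit_two_pow_sub_one, Nat.testBit_two_pow, Nat.zero_testBit]
  by_cases hi : D.kp = i
  · simp [hi]
  · simp [hi]

theorem chk1_spec (h : Num D) (ok : ℕ → Bool) (T : ℕ) (hc : D.chk1 ok (D.hm T) = true) (j : ℕ)
    (hj : j < D.L) (h0 : fld D.W T j % 2 ^ D.kp = 0) : ok j = true := by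
  have hz := hm_fld h T j hj h0
  have hne : Nat.beq (D.hm T) D.BIT = false := by
    rcases hb : Nat.beq (D.hm T) D.BIT with _ | _
    · rfl
    · rw [bq'] at hb
      rw [hb, h.fbit, if_pos hj] at hz
      have := h.k64
      omega
  unfold chk1 at hc
  rw [hne] at hc
  have := scan_spec D.W ok D.dep _ _ hc j (lt_of_lt_of_le hj h.dep) (by
    have : fld D.W (D.hm T ^^^ D.BIT) j ≠ 0 := by
      rw [fld_xor, hz, h.fbit, if_pos hj, Nat.zero_xor]
      positivity
    exact this)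
  rwa [Nat.zero_add] at this

theorem lt_of_fld (W L A : ℕ) (hW : 0 < W) (h : ∀ j, L ≤ j → fld W A j = 0) : A < 2 ^ (W * L) := by
  apply lt_of_shr
  apply Nat.eq_of_testBit_eq
  intro i
  rw [Nat.zero_testBit]
  have h1 : fld W (A >>> (W * L)) (i / W) = 0 := by
    rw [fld_shr]
    exact h _ (Nat.le_add_left _ _)
  have h2 := congrArg (fun x => Nat.testBit x (i % W)) h1
  simp only [fld_testBit, Nat.zero_testBit] at h2
  have h3 : i % W < W := Nat.mod_lt _ hW
  rw [decide_eq_true h3, Bool.true_and, Nat.div_add_mod] at h2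
  exact h2

theorem chkD_spec (h : Ok D) (KL : List ℕ) (d : ℕ) (hd : d < D.L) (hc : D.chkD KL d = true)
    (c0 c1 c2 j : ℕ) (h0 : c0 < 4) (h1 : c1 < 4) (h2 : c2 < 4) (hj : j < D.L)
    (hz : (fld D.W (D.SS c0) j + fld D.W (D.MM c1) ((j + d) % D.L) +
      fld D.W (D.EE c2) ((j + 2 * d) % D.L)) % 2 ^ D.kp = 0) :
    diag d c0 c1 c2 = true ∨ D.hit KL d c0 c1 c2 j = true := by
  have hn := h.n
  have p0 := hn.k64
  have p1 := hn.pW
  have k1 := allB_spec _ _ (allB_spec _ _ (allB_spec _ _ hc c1 h1) c0 h0) c2 h2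
  rw [Bool.or_eq_true] at k1
  rcases k1 with k1 | k1
  · left; exact k1
  right
  apply chk1_spec hn _ _ k1 j hj
  have hL : 0 < D.L := by omega
  have hd2 : 2 * d % D.L < D.L := Nat.mod_lt _ hL
  have t0 := h.trk c0 h0
  have t1 := h.trk c1 h1
  have t2 := h.trk c2 h2
  have b1 : D.MM c1 < 2 ^ (D.W * D.L) := lt_of_fld _ _ _ hn.W0 (fun j hj => (t1.MM j).2 hj)
  have b2 : D.EE c2 < 2 ^ (D.W * D.L) := lt_of_fld _ _ _ hn.W0 (fun j hj => (t2.EE j).2 hj)
  have r1 : ∀ j, fld D.W (rot D.W D.L (D.MM c1) d) j < 2 ^ D.kp := by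
    intro j
    by_cases hj : j < D.L
    · rw [fld_rot _ _ _ _ _ hd hj b1]
      exact (t1.MM _).1
    · rw [rot_lt _ _ _ _ hd b1 _ (by omega)]
      omega
  have r2 : ∀ j, fld D.W (rot D.W D.L (D.EE c2) (2 * d % D.L)) j < 2 ^ D.kp := by
    intro j
    by_cases hj : j < D.L
    · rw [fld_rot _ _ _ _ _ hd2 hj b2]
      exact (t2.EE _).1
    · rw [rot_lt _ _ _ _ hd2 b2 _ (by omega)]
      omega
  have s1 : ∀ j, fld D.W (D.SS c0 + rot D.W D.L (D.MM c1) d) j =
      fld D.W (D.SS c0) j + fld D.W (rot D.W D.L (D.MM c1) d) j :=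
    fld_add _ _ _ (fun j => by have := (t0.SS j).1; have := r1 j; omega)
  have s2 : ∀ j, fld D.W (D.SS c0 + rot D.W D.L (D.MM c1) d +
      rot D.W D.L (D.EE c2) (2 * d % D.L)) j =
      fld D.W (D.SS c0 + rot D.W D.L (D.MM c1) d) j +
      fld D.W (rot D.W D.L (D.EE c2) (2 * d % D.L)) j :=
    fld_add _ _ _ (fun j => by
      have := (t0.SS j).1; have := r1 j; have := r2 j; have := s1 j; omega)
  change fld D.W (D.SS c0 + rot D.W D.L (D.MM c1) d +
      rot D.W D.L (D.EE c2) (2 * d % D.L)) j % 2 ^ D.kp = 0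
  rw [s2, s1, fld_rot _ _ _ _ _ hd hj b1, fld_rot _ _ _ _ _ hd2 hj b2, Nat.add_mod_mod]
  exact hz

/-- coordinates relative to a track -/
theorem xrel (h : Ok D) (a j : ℕ) (ha : a < 8) (hj : j < D.L) :
    (Xl D.w a (j + 1) : ℤ) = fld D.W (D.XC (tr a (D.zn j))) j +
      (sX a (D.zn j) * D.s.eCx + sY a (D.zn j) * D.s.eAx) := by
  have h1 := (Xl_eq h a ha).1 j hj
  have h2 := (OX_lt h a (D.zn j) ha (zn_lt j)).2.2.1
  have h3 : (fld D.W (D.XC (tr a (D.zn j))) j : ℤ) + D.OX a (D.zn j) =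
      D.OFF + Xl D.w a (j + 1) := by exact_mod_cast h1
  linarith

/-- coordinates relative to a track -/
theorem yrel (h : Ok D) (a j : ℕ) (ha : a < 8) (hj : j < D.L) :
    (Yl D.w a (j + 1) : ℤ) = fld D.W (D.YC (tr a (D.zn j))) j +
      (sX a (D.zn j) * D.s.eCy + sY a (D.zn j) * D.s.eAy) := by
  have h1 := (Yl_eq h a ha).1 j hj
  have h2 := (OX_lt h a (D.zn j) ha (zn_lt j)).2.2.2
  have h3 : (fld D.W (D.YC (tr a (D.zn j))) j : ℤ) + D.OY a (D.zn j) =
      D.OFF + Yl D.w a (j + 1) := by exact_mod_cast h1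
  linarith

theorem Xl_lip (h : Ok D) (a : ℕ) (ha : a < 8) (i j : ℕ) (hij : i ≤ j) :
    Xl D.w a i ≤ Xl D.w a j ∧ Xl D.w a j ≤ Xl D.w a i + (j - i) := by
  obtain ⟨k, rfl⟩ := Nat.exists_eq_add_of_le hij
  rw [Nat.add_sub_cancel_left]
  clear hij
  induction k with
  | zero => simp
  | succ k ih =>
    have e : Xl D.w a (i + (k + 1)) = Xl D.w a (i + k) + D.w a (i + k) := by
      unfold Xl
      rw [← Nat.add_assoc, Finset.sum_range_succ]
    have := w_le h a (i + k) ha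
    omega

theorem Yl_lip (h : Ok D) (a : ℕ) (ha : a < 8) (i j : ℕ) (hij : i ≤ j) :
    Yl D.w a i ≤ Yl D.w a j ∧ Yl D.w a j ≤ Yl D.w a i + (j - i) := by
  obtain ⟨k, rfl⟩ := Nat.exists_eq_add_of_le hij
  rw [Nat.add_sub_cancel_left]
  clear hij
  induction k with
  | zero => simp
  | succ k ih =>
    have e : Yl D.w a (i + (k + 1)) = Yl D.w a (i + k) + D.w a (i + k - 1) * D.w a (i + k) := by
      unfold Yl
      rw [← Nat.add_assoc, Finset.sum_range_succ]
    have h1 := w_le h a (i + k) ha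
    have h2 := w_le h a (i + k - 1) ha
    have h3 : D.w a (i + k - 1) * D.w a (i + k) ≤ 1 := by
      calc _ ≤ 1 * 1 := Nat.mul_le_mul h2 h1
        _ = 1 := rfl
    omega

end Dat

end Pool.Agent.H188.Ab
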