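import Mathlib
import Pool.Agent.H188.Ab.Main

set_option autoImplicit false

/-!
Conclusion of the check.
-/

namespace Pool.Agent.H188.Ab

open Finset Pool.Agent.H549R3.Chk Pool.Agent.H549R3.M2.Fam

/-- from keys to values -/
theorem key_good (z0 z1 z2 c0 c1 c2 a0 a1 a2 : ℕ) (ep gx gy DX DY : ℤ) (lg : Bool) (P : Prop)
    (hP : P → lg = true)
    (h : okKey (Nat.add (Nat.mul 4 z0) c0) (Nat.add (Nat.mul 4 z1) c1) (Nat.add (Nat.mul 4 z2) c2)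
      ep gx gy lg = true)
    (h0 : a0 < 8) (h1 : a1 < 8) (h2 : a2 < 8)
    (t0 : tr a0 z0 = c0) (t1 : tr a1 z1 = c1) (t2 : tr a2 z2 = c2)
    (hx : gx = -(DX + sX a0 z0 + sX a2 z2 - 2 * sX a1 z1))
    (hy : gy = -(DY + sY a0 z0 + sY a2 z2 - 2 * sY a1 z1)) : GoodD a0 a1 a2 ep DX DY P := by
  have k0 := tr4 a0 z0 h0
  have k1 := tr4 a1 z1 h1
  have k2 := tr4 a2 z2 h2
  have e : ∀ z c, c < 4 → Nat.add (Nat.mul 4 z) c / 4 = z ∧ Nat.add (Nat.mul 4 z) c % 4 = c := by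
    intro z c hc
    have : Nat.add (Nat.mul 4 z) c = 4 * z + c := rfl
    rw [this]
    omega
  have e0 := e z0 c0 (by omega)
  have e1 := e z1 c1 (by omega)
  have e2 := e z2 c2 (by omega)
  have hg := okKey_spec _ _ _ ep gx gy lg h a0 a1 a2 h0 h1 h2 (by rw [e0.1, e0.2]; exact t0)
    (by rw [e1.1, e1.2]; exact t1) (by rw [e2.1, e2.2]; exact t2)
  rw [e0.1, e1.1, e2.1] at hg
  have x1 : -(gx + sX a0 z0 + sX a2 z2 - 2 * sX a1 z1) = DX := by rw [hx]; ring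
  have y1 : -(gy + sY a0 z0 + sY a2 z2 - 2 * sY a1 z1) = DY := by rw [hy]; ring
  rw [x1, y1] at hg
  exact goodB_spec a0 a1 a2 ep DX DY lg P hP hg

/-- small multiples of the determinant -/
theorem small_zero (g det x : ℤ) (h : g * det = x) (hx : |x| < |det|) : g = 0 := by
  by_contra hg
  have h1 : 1 ≤ |g| := Int.one_le_abs hg
  have h2 : |g| * |det| = |x| := by rw [← abs_mul, h]
  have h3 : 0 ≤ |det| := abs_nonneg _
  nlinarith

theorem small_g (gx gy a b c d det K : ℤ) (bX : |gx * c + gy * a| ≤ 2 * K)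
    (bY : |gx * d + gy * b| ≤ 2 * K) (s0 : det = c * b - d * a)
    (s4 : (2 * K + 2) * (|a| + |b| + |c| + |d|) < |det|) (nK : 0 ≤ K) : gx = 0 ∧ gy = 0 := by
  have nA := abs_nonneg a
  have nB := abs_nonneg b
  have nC := abs_nonneg c
  have nD := abs_nonneg d
  have pA := mul_nonneg nK nA
  have pB := mul_nonneg nK nB
  have pC := mul_nonneg nK nC
  have pD := mul_nonneg nK nD
  constructor
  · apply small_zero gx det ((gx * c + gy * a) * b - (gx * d + gy * b) * a) (by rw [s0]; ring)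
    calc _ ≤ |(gx * c + gy * a) * b| + |(gx * d + gy * b) * a| := abs_sub _ _
      _ = |gx * c + gy * a| * |b| + |gx * d + gy * b| * |a| := by rw [abs_mul, abs_mul]
      _ ≤ 2 * K * |b| + 2 * K * |a| := by
        apply add_le_add
        · exact mul_le_mul_of_nonneg_right bX nB
        · exact mul_le_mul_of_nonneg_right bY nA
      _ < _ := by
        refine lt_of_le_of_lt ?_ s4
        linarith
  · apply small_zero gy det ((gx * d + gy * b) * c - (gx * c + gy * a) * d) (by rw [s0]; ring)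
    calc _ ≤ |(gx * d + gy * b) * c| + |(gx * c + gy * a) * d| := abs_sub _ _
      _ = |gx * d + gy * b| * |c| + |gx * c + gy * a| * |d| := by rw [abs_mul, abs_mul]
      _ ≤ 2 * K * |c| + 2 * K * |d| := by
        apply add_le_add
        · exact mul_le_mul_of_nonneg_right bY nC
        · exact mul_le_mul_of_nonneg_right bX nD
      _ < _ := by
        refine lt_of_le_of_lt ?_ s4
        linarith

theorem aux_bd (S p q K r : ℤ) (h : |S| ≤ 2 * K - 2) (hp0 : 0 ≤ p) (hp1 : p ≤ 1) (hq0 : 0 ≤ q)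
    (hq1 : q ≤ 1) (e : S + (p - q) = r) : |r| ≤ 2 * K := by
  rw [← e]
  rw [abs_le] at h ⊢
  constructor <;> linarith [h.1, h.2]

namespace Dat

variable {D : Dat}

/-- all checks -/
structure Loop (D : Dat) (KL : List ℕ) : Prop where
  ok : Ok D
  q : ckQ = true
  k : allL KL okCode = true
  c : ∀ d < D.L, D.chkD KL d = true

theorem slow_spec (h : Ok D) (KL : List ℕ) (hK : allL KL okCode = true)
    (a0 a1 a2 j0 j1 j2 : ℕ) (ep DX DY : ℤ) (h0 : a0 < 8) (h1 : a1 < 8)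
    (h2 : a2 < 8) (g0 : j0 < D.L) (g1 : j1 < D.L) (g2 : j2 < D.L)
    (hX : D.s.bx * ep + D.s.eCx * DX + D.s.eAx * DY +
      ((Xl D.w a0 (j0 + 1) : ℤ) + Xl D.w a2 (j2 + 1) - 2 * Xl D.w a1 (j1 + 1)) = 0)
    (hY : D.s.by' * ep + D.s.eCy * DX + D.s.eAy * DY +
      ((Yl D.w a0 (j0 + 1) : ℤ) + lb D.w a0 j0 * la D.L D.w a0 j0 + Yl D.w a2 (j2 + 1) -
        2 * Yl D.w a1 (j1 + 1) - lb D.w a1 j1 * la D.L D.w a1 j1) = 0)
    (hc : D.slow KL (tr a0 (D.zn j0)) (tr a1 (D.zn j1)) (tr a2 (D.zn j2)) j0 j1 j2 ep = true) :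
    GoodD a0 a1 a2 ep DX DY (Long D.K j0 j1 j2 ep) := by
  have hS := h.hS
  unfold ckS at hS
  simp only [Bool.and_eq_true, decide_eq_true_eq] at hS
  obtain ⟨s0, -, -, -, s4⟩ := hS
  have hdet : D.det ≠ 0 := by
    intro h0
    rw [h0] at s4
    simp at s4
  rw [xrel h a0 j0 h0 g0, xrel h a1 j1 h1 g1, xrel h a2 j2 h2 g2] at hX
  rw [yrel h a0 j0 h0 g0, yrel h a1 j1 h1 g1, yrel h a2 j2 h2 g2, la_eq h a0 j0 h0 g0,
    la_eq h a1 j1 h1 g1, lb_eq h.n a0 j0 g0, lb_eq h.n a1 j1 g1] at hY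
  unfold slow slowE slowD at hc
  set x : ℤ := (fld D.W (D.XC (tr a0 (D.zn j0))) j0 : ℤ) + fld D.W (D.XC (tr a2 (D.zn j2))) j2 -
    2 * fld D.W (D.XC (tr a1 (D.zn j1))) j1 + ep * D.s.bx with hx
  set y : ℤ := (fld D.W (D.YC (tr a0 (D.zn j0))) j0 : ℤ) +
      fld D.W (D.LB (tr a0 (D.zn j0))) j0 * fld D.W (D.LA (tr a0 (D.zn j0))) j0 +
      fld D.W (D.YC (tr a2 (D.zn j2))) j2 - 2 * fld D.W (D.YC (tr a1 (D.zn j1))) j1 -
      fld D.W (D.LB (tr a1 (D.zn j1))) j1 * fld D.W (D.LA (tr a1 (D.zn j1))) j1 + ep * D.s.by'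
      with hy
  obtain ⟨gx, hgx⟩ : ∃ gx : ℤ, gx = -(DX + sX a0 (D.zn j0) + sX a2 (D.zn j2) -
    2 * sX a1 (D.zn j1)) := ⟨_, rfl⟩
  obtain ⟨gy, hgy⟩ : ∃ gy : ℤ, gy = -(DY + sY a0 (D.zn j0) + sY a2 (D.zn j2) -
    2 * sY a1 (D.zn j1)) := ⟨_, rfl⟩
  have x1 : x = gx * D.s.eCx + gy * D.s.eAx := by
    rw [hgx, hgy, hx]
    linear_combination hX
  have y1 : y = gx * D.s.eCy + gy * D.s.eAy := by
    rw [hgx, hgy, hy]
    linear_combination hY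
  have e1 : (x * D.s.eAy - y * D.s.eAx) / D.det = gx := by
    rw [show x * D.s.eAy - y * D.s.eAx = gx * D.det by rw [x1, y1, s0]; ring]
    exact Int.mul_ediv_cancel _ hdet
  have e2 : (y * D.s.eCx - x * D.s.eCy) / D.det = gy := by
    rw [show y * D.s.eCx - x * D.s.eCy = gy * D.det by rw [x1, y1, s0]; ring]
    exact Int.mul_ediv_cancel _ hdet
  rw [e1, e2] at hc
  have hk := keyN_spec KL _ _ _ _ _ _ _ _ hK hc
  refine key_good _ _ _ _ _ _ a0 a1 a2 ep gx gy DX DY _ _ ?_ hk h0 h1 h2 rfl rfl rfl hgx hgy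
  rintro (⟨l1, l2⟩ | ⟨l1, l2⟩)
  · have : Nat.ble (Nat.add j1 D.K) j2 = true := by rw [bl']; exact l2
    rw [decide_eq_true l1, this]
    rfl
  · have : Nat.ble (Nat.add j0 D.K) j1 = true := by rw [bl']; exact l2
    rw [decide_eq_true l1, this, Bool.and_self, Bool.or_true]

theorem quick_spec (h : Ok D) (hQ : ckQ = true)
    (a0 a1 a2 j0 j1 j2 : ℕ) (ep DX DY : ℤ) (h0 : a0 < 8) (h1 : a1 < 8)
    (h2 : a2 < 8) (g0 : j0 < D.L) (g1 : j1 < D.L) (g2 : j2 < D.L)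
    (he : (2 * j1 - j0 - j2 : ℤ) = ep * D.L)
    (hX : D.s.bx * ep + D.s.eCx * DX + D.s.eAx * DY +
      ((Xl D.w a0 (j0 + 1) : ℤ) + Xl D.w a2 (j2 + 1) - 2 * Xl D.w a1 (j1 + 1)) = 0)
    (hY : D.s.by' * ep + D.s.eCy * DX + D.s.eAy * DY +
      ((Yl D.w a0 (j0 + 1) : ℤ) + lb D.w a0 j0 * la D.L D.w a0 j0 + Yl D.w a2 (j2 + 1) -
        2 * Yl D.w a1 (j1 + 1) - lb D.w a1 j1 * la D.L D.w a1 j1) = 0)
    (hc : D.quick (tr a0 (D.zn j0)) (tr a1 (D.zn j1)) (tr a2 (D.zn j2)) j0 j1 j2 = true) :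
    GoodD a0 a1 a2 ep DX DY (Long D.K j0 j1 j2 ep) := by
  have hS := h.hS
  unfold ckS at hS
  simp only [Bool.and_eq_true, decide_eq_true_eq] at hS
  obtain ⟨s0, -, -, -, s4⟩ := hS
  have hKL := h.n.KL
  have hK := h.n.K
  unfold quick at hc
  simp only [Bool.and_eq_true, bq', bt'] at hc
  obtain ⟨q1, q2, q3, q4, q5, q6, q7, q8⟩ := hc
  simp only [Nat.add_eq] at q3 q4 q5 q6
  have hep : ep = 0 := by
    by_contra hne
    have hab : 1 ≤ |ep| := Int.one_le_abs hne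
    have h3 : |(2 * j1 - j0 - j2 : ℤ)| < D.L := by
      rw [abs_lt]
      constructor <;> omega
    rw [he, abs_mul] at h3
    have h4 : |(D.L : ℤ)| = D.L := abs_of_nonneg (by positivity)
    rw [h4] at h3
    have : 0 ≤ (D.L : ℤ) := by positivity
    nlinarith
  subst hep
  -- values along the letter a0
  have X0 := xrel h a0 j0 h0 g0
  have X1 := xrel h a1 j1 h1 g1
  have X2 := xrel h a2 j2 h2 g2
  have X1' := xrel h a0 j1 h0 g1
  have X2' := xrel h a0 j2 h0 g2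
  have Y0 := yrel h a0 j0 h0 g0
  have Y1 := yrel h a1 j1 h1 g1
  have Y2 := yrel h a2 j2 h2 g2
  have Y1' := yrel h a0 j1 h0 g1
  have Y2' := yrel h a0 j2 h0 g2
  have l0 := la_eq h a0 j0 h0 g0
  have l1 := la_eq h a1 j1 h1 g1
  have m0 := lb_eq h.n a0 j0 g0
  have m1 := lb_eq h.n a1 j1 g1
  have b0 : fld D.W (D.LB (tr a0 (D.zn j0))) j0 * fld D.W (D.LA (tr a0 (D.zn j0))) j0 ≤ 1 := by
    have ht := h.trk _ (tr4 a0 (D.zn j0) h0)
    calc _ ≤ 1 * 1 := Nat.mul_le_mul (ht.LB j0).1 (ht.LA j0).1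
      _ = 1 := rfl
  have b1 : fld D.W (D.LB (tr a1 (D.zn j1))) j1 * fld D.W (D.LA (tr a1 (D.zn j1))) j1 ≤ 1 := by
    have ht := h.trk _ (tr4 a1 (D.zn j1) h1)
    calc _ ≤ 1 * 1 := Nat.mul_le_mul (ht.LB j1).1 (ht.LA j1).1
      _ = 1 := rfl
  have c1 : ((fld D.W (D.LB (tr a0 (D.zn j0))) j0 * fld D.W (D.LA (tr a0 (D.zn j0))) j0 : ℕ) : ℤ)
    ≤ 1 := by exact_mod_cast b0
  have c2 : ((fld D.W (D.LB (tr a1 (D.zn j1))) j1 * fld D.W (D.LA (tr a1 (D.zn j1))) j1 : ℕ) : ℤ)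
    ≤ 1 := by exact_mod_cast b1
  have c1' : (0 : ℤ) ≤
    ((fld D.W (D.LB (tr a0 (D.zn j0))) j0 * fld D.W (D.LA (tr a0 (D.zn j0))) j0 : ℕ) : ℤ) := by
    positivity
  have c2' : (0 : ℤ) ≤
    ((fld D.W (D.LB (tr a1 (D.zn j1))) j1 * fld D.W (D.LA (tr a1 (D.zn j1))) j1 : ℕ) : ℤ) := by
    positivity
  push_cast at c1 c2 c1' c2'
  rw [l0, l1, m0, m1] at hY
  -- bounds
  have bd : ∀ f : ℕ → ℕ, (∀ i j, i ≤ j → f i ≤ f j ∧ f j ≤ f i + (j - i)) →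
      |(f (j0 + 1) : ℤ) + f (j2 + 1) - 2 * f (j1 + 1)| ≤ 2 * (D.K : ℤ) - 2 := by
    intro f hf
    rw [abs_le]
    have u1 := hf (j0 + 1) (j1 + 1)
    have u2 := hf (j1 + 1) (j0 + 1)
    have u3 := hf (j1 + 1) (j2 + 1)
    have u4 := hf (j2 + 1) (j1 + 1)
    constructor <;> omega
  have bX := bd (fun i => Xl D.w a0 i) (fun i j hij => Xl_lip h a0 h0 i j hij)
  have bY := bd (fun i => Yl D.w a0 i) (fun i j hij => Yl_lip h a0 h0 i j hij)
  obtain ⟨gx, hgx⟩ : ∃ gx : ℤ, gx = -(DX + sX a0 (D.zn j0) + sX a2 (D.zn j2) -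
    2 * sX a1 (D.zn j1)) := ⟨_, rfl⟩
  obtain ⟨gy, hgy⟩ : ∃ gy : ℤ, gy = -(DY + sY a0 (D.zn j0) + sY a2 (D.zn j2) -
    2 * sY a1 (D.zn j1)) := ⟨_, rfl⟩
  have e0 : tr a0 (D.zn j0) = tr a0 (D.zn j0) := rfl
  rw [← q7] at q8
  rw [← q7] at X1 X1' Y1 Y1' b1 c2 c2' q1 q2 hgx hgy hY
  rw [← q8] at X2 X2' Y2 Y2' q2 hgx hgy
  rw [← q1] at q2
  rw [← q1] at X1 Y1 c2 c2' hY
  rw [← q2] at X2 Y2
  have dX : (Xl D.w a0 (j0 + 1) : ℤ) + Xl D.w a0 (j2 + 1) - 2 * Xl D.w a0 (j1 + 1) =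
      gx * D.s.eCx + gy * D.s.eAx := by
    rw [hgx, hgy]
    linear_combination hX + X2' - X2 - 2 * X1' + 2 * X1
  have dY : (Yl D.w a0 (j0 + 1) : ℤ) + Yl D.w a0 (j2 + 1) - 2 * Yl D.w a0 (j1 + 1) +
      (fld D.W (D.LB (tr a0 (D.zn j0))) j0 * fld D.W (D.LA (tr a0 (D.zn j0))) j0 -
      fld D.W (D.LB (tr a0 (D.zn j0))) j1 * fld D.W (D.LA (tr a0 (D.zn j0))) j1) =
      gx * D.s.eCy + gy * D.s.eAy := by
    rw [hgx, hgy]
    linear_combination hY + Y2' - Y2 - 2 * Y1' + 2 * Y1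
  have bX' : |gx * D.s.eCx + gy * D.s.eAx| ≤ 2 * (D.K : ℤ) := by
    rw [← dX]
    exact le_trans bX (by linarith)
  have bY' : |gx * D.s.eCy + gy * D.s.eAy| ≤ 2 * (D.K : ℤ) := by
    exact aux_bd _ _ _ _ _ bY c1' c1 c2' c2 dY
  have s4' : (2 * (D.K : ℤ) + 2) * (|D.s.eAx| + |D.s.eAy| + |D.s.eCx| + |D.s.eCy|) < |D.det| := by
    have : (((2 * D.K + 2) * (D.s.eAx.natAbs + D.s.eAy.natAbs + D.s.eCx.natAbs +
      D.s.eCy.natAbs) : ℕ) : ℤ) < ((D.det.natAbs : ℕ) : ℤ) := by exact_mod_cast s4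
    push_cast at this
    exact this
  obtain ⟨z1, z2⟩ := small_g gx gy D.s.eAx D.s.eAy D.s.eCx D.s.eCy D.det D.K bX' bY' s0 s4'
    (by positivity)
  subst z1 z2
  have hk := allB_spec _ _ (allB_spec _ _ hQ (D.zn j0) (zn_lt j0)) (tr a0 (D.zn j0))
    (tr4 a0 (D.zn j0) h0)
  have hb : Nat.blt (tr a0 (D.zn j0)) (nT (D.zn j0)) = true := by
    rw [bt']; exact tr_lt a0 _ h0
  rw [hb, Bool.not_true, Bool.false_or] at hk
  refine key_good (D.zn j0) (D.zn j0) (D.zn j0) _ _ _ a0 a1 a2 0 0 0 DX DY false _ ?_ hk h0 h1 h2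
    rfl q1.symm q2.symm hgx hgy
  rintro (⟨l1, l2⟩ | ⟨l1, l2⟩)
  · exact absurd l1 (by norm_num)
  · omega

/-- The hypothesis of the descent. -/
theorem Loop.allG {KL : List ℕ} (h : Loop D KL) : AllG D.L D.w D.s D.K := by
  intro a0 a1 a2 j0 j1 j2 ep DX DY h0 h1 h2 g0 g1 g2 he hla hlb hX hY
  have hok := h.ok
  have hz := sum0 hok a0 a1 a2 j0 j1 j2 ep DX DY h0 h1 h2 g0 g1 g2 he hla hlb hX hY
  have hL : 0 < D.L := by omega
  have md : ∀ (n j : ℕ) (e : ℤ), j < D.L → (n : ℤ) = j + e * D.L → n % D.L = j := by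
    intro n j e hj hn
    have h1 : ((n % D.L : ℕ) : ℤ) = j := by
      rw [Int.natCast_mod, hn, Int.add_mul_emod_self_right]
      exact Int.emod_eq_of_lt (by positivity) (by exact_mod_cast hj)
    exact_mod_cast h1
  obtain ⟨d, hd, e1, e2⟩ : ∃ d < D.L, (j0 + d) % D.L = j1 ∧ (j0 + 2 * d) % D.L = j2 := by
    by_cases hc : j0 ≤ j1
    · refine ⟨j1 - j0, by omega, ?_, ?_⟩
      · rw [Nat.add_sub_cancel' hc, Nat.mod_eq_of_lt g1]
      · apply md _ _ ep g2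
        push_cast [Nat.cast_sub hc]
        linarith
    · refine ⟨j1 + D.L - j0, by omega, ?_, ?_⟩
      · apply md _ _ 1 g1
        push_cast [Nat.cast_sub (show j0 ≤ j1 + D.L by omega)]
        ring
      · apply md _ _ (ep + 2) g2
        push_cast [Nat.cast_sub (show j0 ≤ j1 + D.L by omega)]
        linarith
  have hit := chkD_spec hok KL d hd (h.c d hd) (tr a0 (D.zn j0)) (tr a1 (D.zn j1))
    (tr a2 (D.zn j2)) j0 (tr4 a0 _ h0) (tr4 a1 _ h1) (tr4 a2 _ h2) g0 (by rw [e1, e2]; exact hz)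
  rcases hit with hdi | hit
  · unfold diag at hdi
    simp only [Bool.and_eq_true, bq'] at hdi
    obtain ⟨w1, w2, w3⟩ := hdi
    subst w1
    rw [Nat.add_zero, Nat.mod_eq_of_lt g0] at e1
    rw [Nat.mul_zero, Nat.add_zero, Nat.mod_eq_of_lt g0] at e2
    apply quick_spec hok h.q a0 a1 a2 j0 j1 j2 ep DX DY h0 h1 h2 g0 g1 g2 he hX hY
    have hK := hok.n.K
    subst e1 e2
    have q : Nat.blt j0 (Nat.add j0 D.K) = true := by
      rw [bt']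
      change j0 < j0 + D.K
      omega
    unfold quick
    rw [(bq' _ _).mpr w2, (bq' _ _).mpr w3, q, nbr]
    rfl
  change D.hit2 KL (tr a0 (D.zn j0)) (tr a1 (D.zn j1)) (tr a2 (D.zn j2)) j0 ((j0 + d) % D.L)
    ((j0 + 2 * d) % D.L) = true at hit
  rw [e1, e2] at hit
  unfold hit2 at hit
  rw [he, Int.mul_ediv_cancel _ (by positivity), Bool.or_eq_true] at hit
  rcases hit with hit | hit
  · exact quick_spec hok h.q a0 a1 a2 j0 j1 j2 ep DX DY h0 h1 h2 g0 g1 g2 he hX hY hit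
  · exact slow_spec hok KL h.k a0 a1 a2 j0 j1 j2 ep DX DY h0 h1 h2 g0 g1 g2 hX hY hit

end Dat

end Pool.Agent.H188.Ab
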