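import Mathlib
import Pool.Agent.H188.Ab.Concl

set_option autoImplicit false

/-!
Words over two letters, occurrences of factors, and 2-abelian squares.
-/

namespace Pool.Agent.H188.Ab

/-- The number of occurrences of the word `x` as a factor of the word `w`, that is the number of
positions `i` with `i + |x| ≤ |w|` such that the block of length `|x|` of `w` starting at `i`
is `x`. -/
def occ (x w : List (Fin 2)) : ℕ :=
  (List.range (w.length + 1 - x.length)).countP fun i => decide ((w.drop i).take x.length = x)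

/-- `u` and `v` are `k`-abelian equivalent: every word `x` with `1 ≤ |x| ≤ k` occurs as a factor
of `u` exactly as many times as it occurs as a factor of `v`. -/
def KAb (k : ℕ) (u v : List (Fin 2)) : Prop :=
  ∀ x : List (Fin 2), 1 ≤ x.length → x.length ≤ k → occ x u = occ x v

/-- `v` is a 2-abelian square of period `n`. -/
def IsSq (v : List (Fin 2)) (n : ℕ) : Prop :=
  ∃ u₁ u₂ : List (Fin 2), v = u₁ ++ u₂ ∧ u₁ ≠ [] ∧ u₂ ≠ [] ∧ KAb 2 u₁ u₂ ∧ u₁.length = n

/-- The finite word `v` is a factor of the infinite word `w`. -/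
def IsFactor (v : List (Fin 2)) (w : ℕ → Fin 2) : Prop :=
  ∃ i : ℕ, v = (List.range v.length).map fun j => w (i + j)

/-- 2-abelian squares of period at least `k` are avoidable over two letters. -/
def Avoidable (k : ℕ) : Prop :=
  ∃ w : ℕ → Fin 2, ∀ v : List (Fin 2), IsFactor v w → ∀ n : ℕ, k ≤ n → ¬ IsSq v n

theorem Avoidable.mono {j k : ℕ} (h : j ≤ k) (hj : Avoidable j) : Avoidable k := by
  obtain ⟨w, hw⟩ := hj
  exact ⟨w, fun v hv n hn => hw v hv n (le_trans h hn)⟩

/-! ### counting -/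

/-- the block of length `n` of `f` starting at `i` -/
def blk (f : ℕ → Fin 2) (i n : ℕ) : List (Fin 2) := (List.range n).map fun j => f (i + j)

theorem blk_length (f : ℕ → Fin 2) (i n : ℕ) : (blk f i n).length = n := by simp [blk]

theorem blk_add (f : ℕ → Fin 2) (i m n : ℕ) : blk f i (m + n) = blk f i m ++ blk f (i + m) n := by
  unfold blk
  rw [List.range_add, List.map_append, List.map_map]
  congr 1
  apply List.map_congr_left
  intro j _
  simp [Nat.add_assoc]

theorem blk_drop (f : ℕ → Fin 2) (i n j : ℕ) (h : j ≤ n) :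
    (blk f i n).drop j = blk f (i + j) (n - j) := by
  obtain ⟨k, rfl⟩ := Nat.exists_eq_add_of_le h
  rw [blk_add, Nat.add_sub_cancel_left]
  rw [List.drop_append_of_le_length (by rw [blk_length]), List.drop_of_length_le
    (by rw [blk_length]), List.nil_append]

theorem blk_take (f : ℕ → Fin 2) (i n j : ℕ) (h : j ≤ n) :
    (blk f i n).take j = blk f i j := by
  obtain ⟨k, rfl⟩ := Nat.exists_eq_add_of_le h
  rw [blk_add, List.take_append_of_le_length (by rw [blk_length]), List.take_of_length_le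
    (by rw [blk_length])]

theorem occ_blk (f : ℕ → Fin 2) (i n : ℕ) (x : List (Fin 2)) (hx : x.length ≤ n) :
    occ x (blk f i n) = (List.range (n + 1 - x.length)).countP
      fun k => decide (blk f (i + k) x.length = x) := by
  unfold occ
  rw [blk_length]
  apply List.countP_congr
  intro k hk
  rw [List.mem_range] at hk
  rw [blk_drop _ _ _ _ (by omega), blk_take _ _ _ _ (by omega)]

theorem occ_small (f : ℕ → Fin 2) (i n : ℕ) (x : List (Fin 2)) (hx : n < x.length) :
    occ x (blk f i n) = 0 := by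
  unfold occ
  rw [blk_length, show n + 1 - x.length = 0 by omega]
  rfl

theorem countP_range (n : ℕ) (q : ℕ → Bool) :
    (List.range n).countP q = ∑ k ∈ Finset.range n, (if q k = true then 1 else 0) := by
  induction n with
  | zero => simp
  | succ n ih =>
    rw [List.range_succ, List.countP_append, ih, Finset.sum_range_succ]
    congr 1
    simp [List.countP_cons]

/-- the value of a letter -/
def gv (f : ℕ → Fin 2) (k : ℕ) : ℕ := (f k : ℕ)

theorem gv_cases (f : ℕ → Fin 2) (k : ℕ) : (f k = 0 ∧ gv f k = 0) ∨ (f k = 1 ∧ gv f k = 1) := by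
  unfold gv
  have h : f k = 0 ∨ f k = 1 := by
    have := (f k).isLt
    rcases hk : f k with ⟨v, hv⟩
    have : v = 0 ∨ v = 1 := by omega
    rcases this with rfl | rfl
    · left; rfl
    · right; rfl
  rcases h with h | h <;> rw [h] <;> simp

theorem blk_one (f : ℕ → Fin 2) (j : ℕ) : blk f j 1 = [f j] := by simp [blk]

theorem blk_two (f : ℕ → Fin 2) (j : ℕ) : blk f j 2 = [f j, f (j + 1)] := by
  simp [blk, List.range_succ]

theorem occ1 (f : ℕ → Fin 2) (i n : ℕ) (hn : 1 ≤ n) :
    occ [1] (blk f i n) = ∑ k ∈ Finset.range n, gv f (i + k) := by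
  rw [occ_blk f i n [1] (by simpa using hn), countP_range]
  apply Finset.sum_congr rfl
  intro k _
  rw [show ([1] : List (Fin 2)).length = 1 from rfl, blk_one]
  rcases gv_cases f (i + k) with ⟨h1, h2⟩ | ⟨h1, h2⟩ <;> rw [h1, h2] <;> simp

theorem occ0 (f : ℕ → Fin 2) (i n : ℕ) (hn : 1 ≤ n) :
    occ [0] (blk f i n) + occ [1] (blk f i n) = n := by
  rw [occ_blk f i n [1] (by simpa using hn), countP_range, occ_blk f i n [0] (by simpa using hn),
    countP_range, show ([1] : List (Fin 2)).length = 1 from rfl,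
    show ([0] : List (Fin 2)).length = 1 from rfl, Nat.add_sub_cancel, ← Finset.sum_add_distrib]
  conv_rhs => rw [← Finset.card_range n, Finset.card_eq_sum_ones]
  apply Finset.sum_congr rfl
  intro k _
  rw [blk_one]
  rcases gv_cases f (i + k) with ⟨h1, h2⟩ | ⟨h1, h2⟩ <;> rw [h1] <;> simp

theorem occ2 (f : ℕ → Fin 2) (i m : ℕ) (a b : Fin 2) :
    occ [a, b] (blk f i (m + 1)) = ∑ k ∈ Finset.range m,
      (if f (i + k) = a ∧ f (i + k + 1) = b then 1 else 0) := by
  rcases Nat.eq_zero_or_pos m with rfl | hm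
  · rw [occ_small _ _ _ _ (by simp)]
    simp
  · rw [occ_blk f i (m + 1) [a, b] (by simp; omega), countP_range]
    rw [show m + 1 + 1 - ([a, b] : List (Fin 2)).length = m by simp]
    apply Finset.sum_congr rfl
    intro k _
    rw [show ([a, b] : List (Fin 2)).length = 2 from rfl, blk_two]
    simp

theorem occ11 (f : ℕ → Fin 2) (i m : ℕ) :
    occ [1, 1] (blk f i (m + 1)) = ∑ k ∈ Finset.range m, gv f (i + k) * gv f (i + k + 1) := by
  rw [occ2]
  apply Finset.sum_congr rfl
  intro k _
  rcases gv_cases f (i + k) with ⟨h1, h2⟩ | ⟨h1, h2⟩ <;>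
    rcases gv_cases f (i + k + 1) with ⟨h3, h4⟩ | ⟨h3, h4⟩ <;> rw [h1, h2, h3, h4] <;> simp

theorem occ01 (f : ℕ → Fin 2) (i m : ℕ) :
    occ [0, 1] (blk f i (m + 1)) + occ [1, 1] (blk f i (m + 1)) =
      ∑ k ∈ Finset.range m, gv f (i + k + 1) := by
  rw [occ2, occ2, ← Finset.sum_add_distrib]
  apply Finset.sum_congr rfl
  intro k _
  rcases gv_cases f (i + k) with ⟨h1, h2⟩ | ⟨h1, h2⟩ <;>
    rcases gv_cases f (i + k + 1) with ⟨h3, h4⟩ | ⟨h3, h4⟩ <;> rw [h1, h3, h4] <;> simp

theorem occ10 (f : ℕ → Fin 2) (i m : ℕ) :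
    occ [1, 0] (blk f i (m + 1)) + occ [1, 1] (blk f i (m + 1)) =
      ∑ k ∈ Finset.range m, gv f (i + k) := by
  rw [occ2, occ2, ← Finset.sum_add_distrib]
  apply Finset.sum_congr rfl
  intro k _
  rcases gv_cases f (i + k) with ⟨h1, h2⟩ | ⟨h1, h2⟩ <;>
    rcases gv_cases f (i + k + 1) with ⟨h3, h4⟩ | ⟨h3, h4⟩ <;> rw [h1, h2, h3] <;> simp

/-- consequences of 2-abelian equivalence of two blocks -/
theorem kab_blk (f : ℕ → Fin 2) (i i' m : ℕ) (h : KAb 2 (blk f i (m + 1)) (blk f i' (m + 1))) :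
    ∑ k ∈ Finset.range (m + 1), gv f (i + k) = ∑ k ∈ Finset.range (m + 1), gv f (i' + k) ∧
    ∑ k ∈ Finset.range m, gv f (i + k) * gv f (i + k + 1) =
      ∑ k ∈ Finset.range m, gv f (i' + k) * gv f (i' + k + 1) ∧
    gv f i = gv f i' ∧ gv f (i + m) = gv f (i' + m) := by
  have a1 := h [1] (by simp) (by simp)
  have a2 := h [1, 1] (by simp) (by simp)
  have a3 := h [0, 1] (by simp) (by simp)
  have a4 := h [1, 0] (by simp) (by simp)
  have b3 := occ01 f i m
  have b3' := occ01 f i' m
  have b4 := occ10 f i m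
  have b4' := occ10 f i' m
  rw [a3, a2] at b3
  rw [a4, a2] at b4
  rw [occ1 f i (m + 1) (by omega), occ1 f i' (m + 1) (by omega)] at a1
  rw [occ11, occ11] at a2
  have c := a1
  have c' := a1
  rw [Finset.sum_range_succ, Finset.sum_range_succ] at c
  rw [Finset.sum_range_succ', Finset.sum_range_succ' _ m] at c'
  simp only [← Nat.add_assoc, Nat.add_zero] at c'
  refine ⟨a1, a2, ?_, ?_⟩ <;> omega

/-- a map passing all checks gives a word -/
theorem avoid {D : Dat} {KL : List ℕ} (h : Dat.Loop D KL) : Avoidable D.K := by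
  have hok := h.ok
  have hL := hok.n.L2
  have ht : ∀ n, t D.L D.w n < 2 := by
    intro n
    unfold t
    have := Dat.w_le hok (z (n / D.L)) (n % D.L) (z_lt _)
    omega
  refine ⟨fun n => ⟨t D.L D.w (n + 1), ht _⟩, ?_⟩
  rintro v ⟨i, hv⟩ n hn ⟨u₁, u₂, hu, hne, -, hk, hn1⟩
  obtain ⟨f, hf⟩ : ∃ f : ℕ → Fin 2, f = fun n => ⟨t D.L D.w (n + 1), ht _⟩ := ⟨_, rfl⟩
  rw [← hf] at hv
  have hv' : v = blk f i (u₁.length + u₂.length) := by
    rw [← List.length_append, ← hu]
    exact hv
  rw [blk_add] at hv'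
  have hpair := hu.symm.trans hv'
  obtain ⟨h1, h2⟩ := List.append_inj hpair (by rw [blk_length])
  rw [hn1] at h1 h2
  have hK := hok.n.K
  obtain ⟨m, rfl⟩ : ∃ m, n = m + 1 := ⟨n - 1, by omega⟩
  have hlen : u₂.length = m + 1 := by
    have e1 := hk [1] (by simp) (by simp)
    have e0 := hk [0] (by simp) (by simp)
    rw [h1, h2] at e1 e0
    have s1 := occ0 f i (m + 1) (by omega)
    rcases Nat.eq_zero_or_pos u₂.length with hz | hz
    · rw [hz, occ_small _ _ 0 _ (by simp)] at e1 e0
      omega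
    · have s2 := occ0 f (i + (m + 1)) u₂.length hz
      omega
  rw [hlen] at h2
  rw [h1, h2] at hk
  obtain ⟨k1, k2, k3, k4⟩ := kab_blk f i (i + (m + 1)) m hk
  have hg : ∀ k, gv f k = t D.L D.w (k + 1) := by
    intro k
    rw [hf]
    rfl
  simp only [hg] at k1 k2 k3 k4
  have sX : ∀ a n, X D.L D.w (a + n) = X D.L D.w a + ∑ k ∈ Finset.range n, t D.L D.w (a + k) := by
    intro a n
    unfold X
    rw [Finset.sum_range_add]
  have sY : ∀ a n, Y D.L D.w (a + (n + 1)) = Y D.L D.w a + p D.L D.w a +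
      ∑ k ∈ Finset.range n, t D.L D.w (a + k) * t D.L D.w (a + k + 1) := by
    intro a n
    unfold Y
    rw [show a + (n + 1) = (a + 1) + n by ring, Finset.sum_range_add, Finset.sum_range_succ]
    congr 1
    apply Finset.sum_congr rfl
    intro k _
    unfold p
    rw [show a + 1 + k - 1 = a + k by omega, show a + 1 + k = a + k + 1 by omega]
  have r1 : ∀ k, i + k + 1 = i + 1 + k := fun k => by ring
  have r2 : ∀ k, i + (m + 1) + k + 1 = i + 1 + (m + 1) + k := fun k => by ring
  apply noLong D.K hK hok.endOk h.allG (i + 1) (m + 1) (by omega) hn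
  · have q1 := sX (i + 1) (m + 1)
    have q2 := sX (i + 1 + (m + 1)) (m + 1)
    simp only [r1, r2] at k1
    rw [show i + 1 + 2 * (m + 1) = i + 1 + (m + 1) + (m + 1) by ring]
    omega
  · have q1 := sY (i + 1) m
    have q2 := sY (i + 1 + (m + 1)) m
    simp only [r1, r2] at k2
    rw [show i + 1 + 2 * (m + 1) = i + 1 + (m + 1) + (m + 1) by ring]
    omega
  · rw [show i + 1 + (m + 1) = i + (m + 1) + 1 by ring]
    exact k3
  · rw [show i + 1 + (m + 1) - 1 = i + m + 1 by omega,
      show i + 1 + 2 * (m + 1) - 1 = i + (m + 1) + m + 1 by omega]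
    exact k4

end Pool.Agent.H188.Ab
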