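import Mathlib
import Pool.Agent.H188.Ab.Prob

set_option autoImplicit false

/-!
2-abelian squares of period at least two are unavoidable over two letters.
-/

namespace Pool.Agent.H188.Ab

open Pool.Agent.H549R3.Chk

/-- test of 2-abelian equivalence -/
def kabB (u v : List (Fin 2)) : Bool :=
  and (Nat.beq (occ [1] u) (occ [1] v)) (and (Nat.beq (occ [0] u) (occ [0] v))
  (and (Nat.beq (occ [1, 1] u) (occ [1, 1] v)) (and (Nat.beq (occ [0, 0] u) (occ [0, 0] v))
  (and (Nat.beq (occ [1, 0] u) (occ [1, 0] v)) (Nat.beq (occ [0, 1] u) (occ [0, 1] v))))))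

theorem kabB_spec (u v : List (Fin 2)) (h : kabB u v = true) : KAb 2 u v := by
  unfold kabB at h
  simp only [Bool.and_eq_true, bq'] at h
  obtain ⟨h1, h0, h11, h00, h10, h01⟩ := h
  intro x hx1 hx2
  match x, hx1, hx2 with
  | [a], _, _ => fin_cases a <;> assumption
  | [a, b], _, _ => fin_cases a <;> fin_cases b <;> assumption

/-- some suffix is a square of period `n + 2` -/
def sqB (w : List (Fin 2)) (n : ℕ) : Bool :=
  and (Nat.ble (Nat.mul 2 (Nat.add n 2)) w.length)
    (kabB ((w.drop (w.length - 2 * (n + 2))).take (n + 2)) (w.drop (w.length - (n + 2))))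

/-- all extensions contain a square -/
def dead : ℕ → List (Fin 2) → Bool
  | 0, w => anyB 8 fun n => sqB w n
  | k + 1, w => or (anyB 8 fun n => sqB w n) (and (dead k (w ++ [0])) (dead k (w ++ [1])))

theorem sqB_spec (f : ℕ → Fin 2) (i : ℕ) (w : List (Fin 2)) (hw : w = blk f i w.length)
    (h : anyB 8 (fun n => sqB w n) = true) : ∃ v, IsFactor v f ∧ ∃ n, 2 ≤ n ∧ IsSq v n := by
  obtain ⟨n, -, h⟩ := anyB_spec _ _ h
  unfold sqB at h
  rw [Bool.and_eq_true, bl'] at h
  obtain ⟨h1, h2⟩ := h
  have h1' : 2 * (n + 2) ≤ w.length := h1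
  obtain ⟨N, hN⟩ : ∃ N, w.length = N := ⟨_, rfl⟩
  rw [hN] at hw h1' h2
  have hk := kabB_spec _ _ h2
  rw [hw, blk_drop _ _ _ _ (by omega), blk_take _ _ _ _ (by omega), blk_drop _ _ _ _ (by omega)]
    at hk
  rw [show N - (N - (n + 2)) = n + 2 by omega] at hk
  refine ⟨blk f (i + (N - 2 * (n + 2))) ((n + 2) + (n + 2)), ⟨i + (N - 2 * (n + 2)), ?_⟩, n + 2,
    by omega, ?_⟩
  · rw [blk_length]
    rfl
  · refine ⟨_, _, blk_add _ _ _ _, ?_, ?_, ?_, blk_length _ _ _⟩
    · intro h
      have := congrArg List.length h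
      rw [blk_length] at this
      simp at this
    · intro h
      have := congrArg List.length h
      rw [blk_length] at this
      simp at this
    · rw [show i + (N - 2 * (n + 2)) + (n + 2) = i + (N - (n + 2)) by omega]
      exact hk

theorem dead_spec (f : ℕ → Fin 2) (i : ℕ) (k : ℕ) : ∀ w : List (Fin 2), w = blk f i w.length →
    dead k w = true → ∃ v, IsFactor v f ∧ ∃ n, 2 ≤ n ∧ IsSq v n := by
  induction k with
  | zero =>
    intro w hw h
    exact sqB_spec f i w hw h
  | succ k ih =>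
    intro w hw h
    unfold dead at h
    rw [Bool.or_eq_true, Bool.and_eq_true] at h
    rcases h with h | ⟨h0, h1⟩
    · exact sqB_spec f i w hw h
    · have hx : ∀ a, f (i + w.length) = a → w ++ [a] = blk f i (w ++ [a]).length := by
        intro a ha
        rw [List.length_append, show ([a] : List (Fin 2)).length = 1 from rfl, blk_add, ← hw,
          blk_one, ha]
      rcases gv_cases f (i + w.length) with ⟨e, -⟩ | ⟨e, -⟩
      · exact ih _ (hx 0 e) h0
      · exact ih _ (hx 1 e) h1

theorem dead_all : dead 19 [] = true := by decide +kernel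

theorem not_avoidable_two : ¬ Avoidable 2 := by
  rintro ⟨f, hf⟩
  obtain ⟨v, hv, n, hn, hs⟩ := dead_spec f 0 19 [] rfl dead_all
  exact hf v hv n hn hs

end Pool.Agent.H188.Ab
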